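import Pool.Agent.H24.RS.Prob

/-!
# Random sets: basic facts and the statements of the stubs
-/

set_option autoImplicit false

open Finset

namespace Pool.Agent.H24.RS

open Pool.Agent.H617R3.AP

/-- the weight of `S`, that is, the probability that the random subset of `U` is `S` -/
noncomputable def wt (U : Finset ℕ) (p : ℝ) (S : Finset ℕ) : ℝ :=
  p ^ S.card * (1 - p) ^ (U.card - S.card)

theorem wt_nonneg {U : Finset ℕ} {p : ℝ} (hp0 : 0 ≤ p) (hp1 : p ≤ 1) (S : Finset ℕ) :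
    0 ≤ wt U p S := by
  unfold wt
  have : 0 ≤ 1 - p := by linarith
  positivity

open Classical in
theorem randProb_wt (U : Finset ℕ) (p : ℝ) (Q : Finset ℕ → Prop) :
    randProb U p Q = ∑ S ∈ U.powerset.filter (fun S => Q S), wt U p S := rfl

open Classical in
/-- the probability that the random set contains `T` -/
theorem sum_superset (U T : Finset ℕ) (hT : T ⊆ U) (p : ℝ) :
    ∑ S ∈ U.powerset, (if T ⊆ S then wt U p S else 0) = p ^ T.card := by
  have h1 := Finset.prod_add (fun _ : ℕ => p) (fun i => if i ∈ T then 0 else 1 - p) U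
  have h2 : ∀ S ∈ U.powerset, (∏ _i ∈ S, p) * ∏ i ∈ U \ S, (if i ∈ T then 0 else 1 - p) =
      if T ⊆ S then wt U p S else 0 := by
    intro S hS
    rw [mem_powerset] at hS
    split_ifs with h
    · unfold wt
      rw [prod_const]
      congr 1
      rw [← card_sdiff_of_subset hS, ← prod_const]
      refine prod_congr rfl fun i hi => ?_
      rw [if_neg]
      intro hiT
      exact (mem_sdiff.1 hi).2 (h hiT)
    · obtain ⟨x, hxT, hxS⟩ := not_subset.1 h
      have h3 : ∏ i ∈ U \ S, (if i ∈ T then 0 else 1 - p) = 0 :=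
        prod_eq_zero (i := x) (mem_sdiff.2 ⟨hT hxT, hxS⟩) (if_pos hxT)
      rw [h3, mul_zero]
  rw [sum_congr rfl h2] at h1
  rw [← h1]
  have h5 : ∀ i ∈ U, (p + (if i ∈ T then 0 else 1 - p)) = if i ∈ T then p else 1 := by
    intro i _
    split_ifs <;> ring
  rw [prod_congr rfl h5, ← prod_filter, prod_const, filter_mem_eq_inter, inter_eq_right.2 hT]

theorem sum_wt (U : Finset ℕ) (p : ℝ) : ∑ S ∈ U.powerset, wt U p S = 1 := by
  classical
  have := sum_superset U ∅ (empty_subset _) p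
  simpa using this

/-- Markov's inequality -/
theorem markov {U : Finset ℕ} {p : ℝ} (hp0 : 0 ≤ p) (hp1 : p ≤ 1) (g : Finset ℕ → ℝ)
    (hg : ∀ S ∈ U.powerset, 0 ≤ g S) {B : ℝ} (hB : 0 < B) {Q : Finset ℕ → Prop}
    (hQ : ∀ S ∈ U.powerset, Q S → B ≤ g S) :
    randProb U p Q ≤ (∑ S ∈ U.powerset, wt U p S * g S) / B := by
  classical
  rw [randProb_wt, le_div_iff₀ hB, sum_mul]
  refine le_trans (sum_le_sum fun S hS => ?_)
    (sum_le_sum_of_subset_of_nonneg (filter_subset _ _) fun S hS _ =>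
      mul_nonneg (wt_nonneg hp0 hp1 S) (hg S hS))
  rw [mem_filter] at hS
  exact mul_le_mul_of_nonneg_left (hQ S hS.1 hS.2) (wt_nonneg hp0 hp1 S)

theorem randProb_union {U : Finset ℕ} {p : ℝ} (hp0 : 0 ≤ p) (hp1 : p ≤ 1)
    {Q Q₁ Q₂ : Finset ℕ → Prop} (h : ∀ S ∈ U.powerset, Q S → Q₁ S ∨ Q₂ S) :
    randProb U p Q ≤ randProb U p Q₁ + randProb U p Q₂ := by
  classical
  rw [randProb_wt, randProb_wt, randProb_wt]
  have h1 : U.powerset.filter (fun S => Q S) ⊆
      U.powerset.filter (fun S => Q₁ S) ∪ U.powerset.filter (fun S => Q₂ S) := by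
    intro S hS
    rw [mem_filter] at hS
    rw [mem_union, mem_filter, mem_filter]
    rcases h S hS.1 hS.2 with h | h
    · exact Or.inl ⟨hS.1, h⟩
    · exact Or.inr ⟨hS.1, h⟩
  refine (sum_le_sum_of_subset_of_nonneg h1 fun S _ _ => wt_nonneg hp0 hp1 S).trans ?_
  rw [← sum_union_inter]
  have : 0 ≤ ∑ S ∈ U.powerset.filter (fun S => Q₁ S) ∩ U.powerset.filter (fun S => Q₂ S),
    wt U p S := sum_nonneg fun S _ => wt_nonneg hp0 hp1 S
  linarith

theorem randProb_mono {U : Finset ℕ} {p : ℝ} (hp0 : 0 ≤ p) (hp1 : p ≤ 1)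
    {Q Q₁ : Finset ℕ → Prop} (h : ∀ S ∈ U.powerset, Q S → Q₁ S) :
    randProb U p Q ≤ randProb U p Q₁ := by
  classical
  rw [randProb_wt, randProb_wt]
  refine sum_le_sum_of_subset_of_nonneg (fun S hS => ?_) fun S _ _ => wt_nonneg hp0 hp1 S
  rw [mem_filter] at hS ⊢
  exact ⟨hS.1, h S hS.1 hS.2⟩

theorem randProb_compl {U : Finset ℕ} {p : ℝ} (Q : Finset ℕ → Prop) :
    randProb U p Q + randProb U p (fun S => ¬ Q S) = 1 := by
  classical
  rw [randProb_wt, randProb_wt, ← sum_wt U p, ← sum_filter_add_sum_filter_not U.powerset Q]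
  congr 1
  refine sum_congr ?_ fun _ _ => rfl
  ext S
  simp only [mem_filter]

/-- the terms of the progression `a, a + d, ..., a + (k - 1) d` -/
def prog (k : ℕ) (q : ℕ × ℕ) : Finset ℕ := (range k).image fun i => q.1 + i * q.2

open Classical in
/-- the progressions of length `k` in `{1, ..., N}`, as pairs (first term, difference) -/
noncomputable def progs (k N : ℕ) : Finset (ℕ × ℕ) :=
  (Icc 1 N ×ˢ Icc 1 N).filter fun q => ∀ i < k, q.1 + i * q.2 ∈ Icc 1 N

open Classical in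
/-- the number of progressions of length `k` in `S` -/
noncomputable def apc (k N : ℕ) (S : Finset ℕ) : ℕ :=
  ((progs k N).filter fun q => ∀ i < k, q.1 + i * q.2 ∈ S).card

/-- RS-VAR: the number of progressions of length `k` in a random set (second moment).
Let `Y S = apc k N S`, `B = p ^ k * N ^ 2`. `E Y = |progs| p ^ k ≤ B / 4` as `|progs| ≤ N ^ 2 / 4`
(for given `a` at most `(N - a) / (k - 1) ≤ (N - a) / 2` differences).
`E Y ^ 2 - (E Y) ^ 2 ≤ ∑ over pairs (q, q') with intersecting prog of p ^ |prog q ∪ prog q'|`: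
at most `N ^ 2 k ^ 2 N` pairs with just one common element, weight `p ^ (2 k - 1)` each, and at most
`N ^ 2 k ^ 4` pairs with at least two common elements, weight at most `p ^ k` each.
Chebyshev: `P (Y ≥ B) ≤ Var / (3 B / 4) ^ 2 ≤ (16 / 9) (k ^ 2 / (p N) + k ^ 4 / (p ^ k N ^ 2))` and
`p ^ k N ^ 2 = (p ^ (k - 1) N) (p N) ≥ p N`. Use `sum_superset` (probability that `T ⊆ S` is
`p ^ |T|`), `sum_wt`, `markov`. -/
def S_VAR : Prop := ∀ (k N : ℕ) (p : ℝ), 3 ≤ k → 1 ≤ N → 0 < p → p ≤ 1 →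
  1 ≤ p ^ (k - 1) * N →
  randProb (Icc 1 N) p (fun S => p ^ k * (N : ℝ) ^ 2 ≤ (apc k N S : ℝ)) ≤ 4 * (k : ℝ) ^ 4 / (p * N)

end Pool.Agent.H24.RS
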