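import Pool.Agent.H24.RS.Base
import Pool.Agent.H24.Lib.seeded_b0a926ef.R535.AP.Reg

/-!
# Containers at the scale of a sparse random set
-/

set_option autoImplicit false

open Finset

namespace Pool.Agent.H24.RS

open Pool.Agent.H617R3.AP Pool.Agent.R535.AP
open Pool.Agent.Y940.CT (Cov)

theorem steps' {δ y : ℝ} (hδ0 : 0 < δ) (hδ1 : δ ≤ 1) {J : ℕ} (hJ : y / δ ≤ J) :
    (1 - δ) ^ J ≤ Real.exp (-y) := by
  have h1 : 1 - δ ≤ Real.exp (-δ) := by
    have := Real.add_one_le_exp (-δ)
    linarith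
  calc (1 - δ) ^ J ≤ (Real.exp (-δ)) ^ J := pow_le_pow_left₀ (by linarith) h1 _
    _ = Real.exp (J * (-δ)) := by rw [← Real.exp_nat_mul]
    _ ≤ Real.exp (-y) := by
        apply Real.exp_le_exp.2
        rw [div_le_iff₀ hδ0] at hJ
        linarith

/-- Behrend's bound for the density -/
theorem d_ge {k : ℕ} (hk : 3 ≤ k) {M : ℕ} (hM : 1 ≤ M) {t : ℝ} (ht : 0 ≤ t)
    (hMt : (M : ℝ) ≤ Real.exp (t ^ 2)) : Real.exp (-(4 * t)) ≤ d k M := by
  have hM0 : (0 : ℝ) < M := by exact_mod_cast hM
  have h1 := behrend hk M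
  have h2 : √(Real.log M) ≤ t := by
    rw [Real.sqrt_le_left ht]
    rw [Real.log_le_iff_le_exp hM0]
    exact hMt
  unfold d
  rw [le_div_iff₀ hM0, mul_comm]
  refine le_trans ?_ h1
  apply mul_le_mul_of_nonneg_left _ hM0.le
  apply Real.exp_le_exp.2
  linarith

theorem cont {k : ℕ} (hk : 3 ≤ k) : ∃ t₀ : ℝ, ∀ (N : ℕ) (p t : ℝ), 0 < p → p ≤ 1 → t₀ ≤ t →
    p ^ (k - 1) * N = Real.exp (t ^ 2) → Real.log N ≤ Real.exp t →
    ∃ M : ℕ, 1 ≤ M ∧ Real.exp (t ^ 2 - (6 * k + 1) * t) ≤ M ∧ (M : ℝ) ≤ Real.exp (t ^ 2 - t) ∧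
      Cov (fun I => I ⊆ Icc 1 N ∧ APFree k I) (Icc 1 N)
        (Real.exp (d k M * (p * N) / 4)) (8 * N * d k M) := by
  have hkR : (3 : ℝ) ≤ k := by exact_mod_cast hk
  obtain ⟨δ, τ₀, hδ0, hδ1, hτ₀0, hτ₀1, hstep⟩ := step (k := k) (by omega) (κ := 1 / 2)
    (by norm_num) (by norm_num)
  obtain ⟨X₀, hX₀⟩ := Pool.Agent.W346.RB.primes
  obtain ⟨s₁, hs₁⟩ := poly_exp (84 * k * (4 / δ + 1)) 1 1 (by norm_num)
  refine ⟨max (max s₁ |Real.log τ₀|) (max (6 * k + 4) (X₀ + 1)), ?_⟩
  intro N p t hp0 hp1 ht hm hlogN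
  have ht1 : s₁ ≤ t := (le_max_left _ _).trans ((le_max_left _ _).trans ht)
  have ht2 : |Real.log τ₀| ≤ t := (le_max_right _ _).trans ((le_max_left _ _).trans ht)
  have ht3 : 6 * (k : ℝ) + 4 ≤ t := (le_max_left _ _).trans ((le_max_right _ _).trans ht)
  have ht4 : (X₀ : ℝ) + 1 ≤ t := (le_max_right _ _).trans ((le_max_right _ _).trans ht)
  have ht22 : 22 ≤ t := by linarith
  have ht0 : 0 < t := by linarith
  -- the size of `N`
  have hpk : p ^ (k - 1) ≤ 1 := pow_le_one₀ hp0.le hp1
  have hpk0 : 0 < p ^ (k - 1) := pow_pos hp0 _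
  have hNexp : Real.exp (t ^ 2) ≤ N := by
    rw [← hm]
    exact mul_le_of_le_one_left (Nat.cast_nonneg _) hpk
  have hN0 : (0 : ℝ) < N := (Real.exp_pos _).trans_le hNexp
  have hN1 : 1 ≤ N := by exact_mod_cast hN0
  have hNR : (1 : ℝ) ≤ N := by exact_mod_cast hN1
  have hpN : Real.exp (t ^ 2) ≤ p * N := by
    rw [← hm]
    apply mul_le_mul_of_nonneg_right _ hN0.le
    calc p ^ (k - 1) ≤ p ^ 1 := pow_le_pow_of_le_one hp0.le hp1 (by omega)
      _ = p := pow_one _
  -- `Y` and `X`
  obtain ⟨Y, hY⟩ : ∃ Y : ℝ, Y = N * Real.exp (6 * k * t - t ^ 2) := ⟨_, rfl⟩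
  have hYlow : Real.exp (6 * k * t) ≤ Y := by
    rw [hY]
    calc Real.exp (6 * k * t) = Real.exp (t ^ 2) * Real.exp (6 * k * t - t ^ 2) := by
          rw [← Real.exp_add]; congr 1; ring
      _ ≤ _ := by gcongr
  have hYN : Y ≤ N * Real.exp (-(2 * t)) := by
    rw [hY]
    apply mul_le_mul_of_nonneg_left _ hN0.le
    apply Real.exp_le_exp.2
    nlinarith
  have he18 : Real.exp (18 * t) ≤ Y := by
    refine le_trans ?_ hYlow
    apply Real.exp_le_exp.2
    nlinarith
  have het : 1 + t ≤ Real.exp t := by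
    have := Real.add_one_le_exp t
    linarith
  have he18' : Real.exp (18 * t) = Real.exp t ^ 18 := by
    rw [← Real.exp_nat_mul]; norm_num
  have het23 : 23 ≤ Real.exp t := by linarith
  have hbig : 80 * Real.exp t ≤ Y := by
    refine le_trans ?_ he18
    rw [he18']
    have h1 : (80 : ℝ) ≤ Real.exp t ^ 17 := by
      calc (80 : ℝ) ≤ 23 ^ 2 := by norm_num
        _ ≤ Real.exp t ^ 2 := by gcongr
        _ ≤ Real.exp t ^ 17 := pow_le_pow_right₀ (by linarith) (by norm_num)
    calc 80 * Real.exp t ≤ Real.exp t ^ 17 * Real.exp t := by gcongr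
      _ = Real.exp t ^ 18 := by ring
  obtain ⟨X, hX⟩ : ∃ X : ℕ, X = ⌊Y⌋₊ := ⟨_, rfl⟩
  have hY0 : 0 < Y := lt_of_lt_of_le (Real.exp_pos _) he18
  have hXle : (X : ℝ) ≤ Y := by rw [hX]; exact Nat.floor_le hY0.le
  have hXgt : Y / 2 ≤ X := by
    have : Y - 1 < X := by rw [hX]; exact Nat.sub_one_lt_floor _
    linarith
  have hXN : (X : ℝ) ≤ N := by
    refine hXle.trans (hYN.trans ?_)
    calc (N : ℝ) * Real.exp (-(2 * t)) ≤ N * 1 := by
          apply mul_le_mul_of_nonneg_left _ hN0.le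
          rw [Real.exp_le_one_iff]; linarith
      _ = N := mul_one _
  have hXN' : X ≤ N := by exact_mod_cast hXN
  have hX40 : 40 * Real.exp t ≤ X := by linarith
  have hX0 : (0 : ℝ) < X := by linarith
  have hX1 : 1 ≤ X := by exact_mod_cast hX0
  have hXX₀ : X₀ ≤ X := by
    have : (X₀ : ℝ) ≤ X := by linarith
    exact_mod_cast this
  have hlogX : Real.log X ≤ Real.exp t := (Real.log_le_log hX0 hXN).trans hlogN
  have hlogX0 : 0 < Real.log X := Real.log_pos (by linarith)
  -- the number of primes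
  obtain ⟨D, hD⟩ : ∃ D : ℕ, D = ⌊(X : ℝ) / (10 * Real.log X)⌋₊ := ⟨_, rfl⟩
  have hDle : (D : ℝ) ≤ X / (10 * Real.log X) := by rw [hD]; exact Nat.floor_le (by positivity)
  have hDge : (X : ℝ) / (20 * Real.exp t) ≤ D := by
    have h1 : (X : ℝ) / (10 * Real.log X) - 1 < D := by rw [hD]; exact Nat.sub_one_lt_floor _
    have h2 : (X : ℝ) / (10 * Real.exp t) ≤ X / (10 * Real.log X) := by gcongr
    have h3 : (X : ℝ) / (10 * Real.exp t) = 2 * (X / (20 * Real.exp t)) := by
      field_simp
      norm_num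
    have h4 : 1 ≤ (X : ℝ) / (20 * Real.exp t) := by
      rw [le_div_iff₀ (by positivity)]
      linarith
    linarith
  have hD1 : 1 ≤ D := by
    have h4 : 1 ≤ (X : ℝ) / (20 * Real.exp t) := by
      rw [le_div_iff₀ (by positivity)]
      linarith
    exact_mod_cast h4.trans hDge
  obtain ⟨f, hf, hinj⟩ := hX₀ X hXX₀ D hDle
  -- `τ`
  obtain ⟨τ, hτ⟩ : ∃ τ : ℝ, τ = p * Real.exp (-(6 * t)) := ⟨_, rfl⟩
  have hτ0 : 0 < τ := by rw [hτ]; positivity
  have hττ : τ ≤ τ₀ := by
    rw [hτ]
    calc p * Real.exp (-(6 * t)) ≤ 1 * Real.exp (-(6 * t)) := by gcongr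
      _ = Real.exp (-(6 * t)) := one_mul _
      _ ≤ τ₀ := by
          rw [← Real.le_log_iff_exp_le hτ₀0]
          have := neg_abs_le (Real.log τ₀)
          linarith
  have hτk : (Nat.log 2 N : ℝ) ≤ D * τ ^ (k - 1) := by
    have h1 : ((Nat.log 2 N : ℕ) : ℝ) ≤ 3 / 2 * Real.exp t := by
      have := natlog_le hN1
      linarith
    refine h1.trans ?_
    have h2 : τ ^ (k - 1) = p ^ (k - 1) * Real.exp (-(6 * (k - 1) * t)) := by
      rw [hτ, mul_pow, ← Real.exp_nat_mul]
      congr 2
      rw [Nat.cast_sub (by omega)]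
      push_cast
      ring
    have h3 : Y / (40 * Real.exp t) ≤ D := by
      refine le_trans ?_ hDge
      calc Y / (40 * Real.exp t) = (Y / 2) / (20 * Real.exp t) := by field_simp; norm_num
        _ ≤ _ := by gcongr
    have h4 : Y / (40 * Real.exp t) * τ ^ (k - 1) = Real.exp (5 * t) / 40 := by
      rw [h2, hY]
      have e1 : (N : ℝ) * Real.exp (6 * k * t - t ^ 2) / (40 * Real.exp t) *
          (p ^ (k - 1) * Real.exp (-(6 * (k - 1) * t))) = (p ^ (k - 1) * N) *
          (Real.exp (6 * k * t - t ^ 2) * Real.exp (-(6 * (k - 1) * t)) * Real.exp (-t)) / 40 := by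
        rw [Real.exp_neg t]
        field_simp
      rw [e1, hm, ← Real.exp_add, ← Real.exp_add, ← Real.exp_add]
      congr 2
      ring
    calc 3 / 2 * Real.exp t ≤ Real.exp (5 * t) / 40 := by
          have e5 : Real.exp (5 * t) = Real.exp t ^ 5 := by
            rw [← Real.exp_nat_mul]; norm_num
          rw [e5]
          have h5 : (60 : ℝ) ≤ Real.exp t ^ 4 := by
            calc (60 : ℝ) ≤ 23 ^ 4 := by norm_num
              _ ≤ Real.exp t ^ 4 := by gcongr
          nlinarith
      _ = Y / (40 * Real.exp t) * τ ^ (k - 1) := h4.symm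
      _ ≤ D * τ ^ (k - 1) := by gcongr
  -- `M`
  obtain ⟨M, hM⟩ : ∃ M : ℕ, M = N / X := ⟨_, rfl⟩
  have hM1 : 1 ≤ M := by rw [hM]; exact (Nat.one_le_div_iff (by omega)).2 hXN'
  have hM0 : (0 : ℝ) < M := by exact_mod_cast hM1
  have hMle : (M : ℝ) ≤ N / X := by rw [hM]; exact Nat.cast_div_le
  have hMup : (M : ℝ) ≤ Real.exp (t ^ 2 - t) := by
    refine hMle.trans ?_
    rw [div_le_iff₀ hX0]
    have h1 : 2 * Real.exp (-(t)) ≤ 1 := by
      rw [Real.exp_neg]
      rw [← div_eq_mul_inv, div_le_one (Real.exp_pos _)]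
      linarith
    calc (N : ℝ) = N * (Real.exp (t ^ 2 - t) * Real.exp (6 * k * t - t ^ 2) *
          Real.exp (t - 6 * k * t)) := by
          rw [← Real.exp_add, ← Real.exp_add]
          have : t ^ 2 - t + (6 * k * t - t ^ 2) + (t - 6 * k * t) = 0 := by ring
          rw [this, Real.exp_zero, mul_one]
      _ = Real.exp (t ^ 2 - t) * (Y * Real.exp (t - 6 * k * t)) := by rw [hY]; ring
      _ ≤ Real.exp (t ^ 2 - t) * (Y * (1 / 2)) := by
          gcongr
          have h2 : Real.exp (t - 6 * k * t) ≤ Real.exp (-t) := by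
            apply Real.exp_le_exp.2
            nlinarith
          linarith
      _ ≤ Real.exp (t ^ 2 - t) * X := by
          gcongr
          linarith
  have hMlow : Real.exp (t ^ 2 - (6 * k + 1) * t) ≤ M := by
    have h1 : (N : ℝ) / X < M + 1 := by
      rw [div_lt_iff₀ hX0, hM]
      have h2 : N < (N / X + 1) * X := by
        have h3 := Nat.div_add_mod N X
        have h4 := Nat.mod_lt N (show X > 0 by omega)
        nlinarith
      exact_mod_cast h2
    have h2 : Real.exp (t ^ 2 - 6 * k * t) ≤ (N : ℝ) / X := by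
      rw [le_div_iff₀ hX0]
      calc Real.exp (t ^ 2 - 6 * k * t) * X ≤ Real.exp (t ^ 2 - 6 * k * t) * Y := by gcongr
        _ = N * (Real.exp (t ^ 2 - 6 * k * t) * Real.exp (6 * k * t - t ^ 2)) := by rw [hY]; ring
        _ = N := by
            rw [← Real.exp_add]
            have : t ^ 2 - 6 * k * t + (6 * k * t - t ^ 2) = 0 := by ring
            rw [this, Real.exp_zero, mul_one]
    have h3 : 2 * Real.exp (t ^ 2 - (6 * k + 1) * t) ≤ Real.exp (t ^ 2 - 6 * k * t) := by
      have e : Real.exp (t ^ 2 - 6 * k * t) = Real.exp t * Real.exp (t ^ 2 - (6 * k + 1) * t) := by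
        rw [← Real.exp_add]; congr 1; ring
      rw [e]
      gcongr
      linarith
    have h4 : 1 ≤ Real.exp (t ^ 2 - (6 * k + 1) * t) := by
      apply Real.one_le_exp
      nlinarith
    linarith
  have hdM : Real.exp (-(4 * t)) ≤ d k M := d_ge hk hM1 ht0.le (hMup.trans (by
    apply Real.exp_le_exp.2; linarith))
  have hdM0 : 0 < d k M := d_pos hk hM1
  -- the logarithm of `τ`
  have hlogτ : Real.log τ⁻¹ ≤ 7 * Real.exp t := by
    rw [Real.log_inv, hτ, Real.log_mul (by positivity) (by positivity), Real.log_exp]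
    have h1 : -Real.log p ≤ Real.exp t := by
      refine le_trans ?_ hlogN
      rw [← Real.log_inv]
      apply Real.log_le_log (by positivity)
      rw [inv_le_iff_one_le_mul₀ hp0]
      have h2 : 1 ≤ Real.exp (t ^ 2) := Real.one_le_exp (by positivity)
      linarith
    linarith
  have hlogτ0 : 0 ≤ Real.log τ⁻¹ := by
    apply Real.log_nonneg
    rw [one_le_inv₀ hτ0]
    exact hττ.trans hτ₀1
  -- iteration
  obtain ⟨J, hJ, hJ'⟩ : ∃ J : ℕ, 4 * t / δ ≤ J ∧ (J : ℝ) ≤ 4 * t / δ + 1 :=
    ⟨⌈4 * t / δ⌉₊, Nat.le_ceil _, (Nat.ceil_lt_add_one (by positivity)).le⟩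
  have hit := iterate (P := APFree k) (V := Icc 1 N) (m := 8 * N * d k M)
    (b := 3 * k * (τ * Real.log τ⁻¹) * N) (by positivity) hδ0 hδ1 (by
      intro U hU hUm
      have hUN : (U.card : ℝ) ≤ N := by
        have := card_le_card hU
        rw [Nat.card_Icc] at this
        exact_mod_cast this
      have hst := hstep N D f (fun i hi => (hf i hi).1) hinj hD1 U hU τ hτ0 hττ
        (by
          intro i hi
          obtain ⟨h1, -, -, h2⟩ := hf i hi
          have hq1 : 1 ≤ f i := h1.one_lt.le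
          have hq0 : (0 : ℝ) < f i := by exact_mod_cast hq1
          obtain ⟨L, hL⟩ : ∃ L : ℕ, L = N / f i + 1 := ⟨_, rfl⟩
          rw [← hL]
          have hL0 : (0 : ℝ) < L := by rw [hL]; positivity
          have hML : M ≤ L := by
            rw [hM, hL]
            exact (Nat.div_le_div_left h2 hq1).trans (Nat.le_succ _)
          have hdL : d k L ≤ 2 * d k M := by
            refine (d_le (k := k) (by omega) (M := L) (by omega) (N := M) (by omega)).trans ?_
            apply mul_le_mul_of_nonneg_right _ hdM0.le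
            have : (M : ℝ) / L ≤ 1 := by
              rw [div_le_one hL0]
              exact_mod_cast hML
            linarith
          have hqL : (f i : ℝ) * L ≤ 2 * N := by
            rw [hL]
            push_cast
            have h3 : ((N / f i : ℕ) : ℝ) ≤ (N : ℝ) / f i := Nat.cast_div_le
            have h4 : (f i : ℝ) ≤ N := by
              have : ((f i : ℕ) : ℝ) ≤ X := by exact_mod_cast h2
              linarith
            calc (f i : ℝ) * (((N / f i : ℕ) : ℝ) + 1) ≤ f i * ((N : ℝ) / f i + 1) := by gcongr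
              _ = N + f i := by field_simp
              _ ≤ 2 * N := by linarith
          have hr : (r k L : ℝ) = L * d k L := by
            unfold d
            field_simp
          rw [hr]
          calc (f i : ℝ) * (L * d k L) = (f i * L) * d k L := by ring
            _ ≤ (2 * N) * (2 * d k M) := by
                have : 0 ≤ d k L := (d_pos hk (by omega : 1 ≤ L)).le
                gcongr
            _ = 4 * N * d k M := by ring
            _ ≤ (1 - 1 / 2) * U.card := by linarith)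
        hτk
        (by
          have h1 : 8 * N * Real.exp (-(4 * t)) ≤ U.card := by
            refine le_trans ?_ hUm.le
            gcongr
          calc (1 : ℝ) ≤ 8 * (Real.exp (t ^ 2) * Real.exp (-(10 * t))) := by
                rw [← Real.exp_add]
                have h2 : 1 ≤ Real.exp (t ^ 2 + -(10 * t)) := by
                  apply Real.one_le_exp
                  nlinarith
                linarith
            _ ≤ 8 * ((p * N) * Real.exp (-(10 * t))) := by gcongr
            _ = 8 * N * Real.exp (-(4 * t)) * τ := by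
                rw [hτ]
                have e : Real.exp (-(10 * t)) = Real.exp (-(4 * t)) * Real.exp (-(6 * t)) := by
                  rw [← Real.exp_add]; congr 1; ring
                rw [e]
                ring
            _ ≤ U.card * τ := by gcongr)
      refine hst.mono (fun I hI => hI) ?_ le_rfl
      apply Real.exp_le_exp.2
      gcongr) J (Icc 1 N) Subset.rfl
  refine ⟨M, hM1, hMlow, hMup, hit.mono (fun I hI => hI) ?_ ?_⟩
  · apply Real.exp_le_exp.2
    have h2 : (J : ℝ) ≤ (4 / δ + 1) * t := by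
      have e1 : 4 * t / δ = 4 / δ * t := by ring
      rw [e1] at hJ'
      nlinarith
    have h3 := hs₁ t ht1
    rw [pow_one, one_mul] at h3
    have hJ0 : (0 : ℝ) ≤ J := Nat.cast_nonneg _
    calc (J : ℝ) * (3 * k * (τ * Real.log τ⁻¹) * N)
        ≤ ((4 / δ + 1) * t) * (3 * k * (τ * (7 * Real.exp t)) * N) := by gcongr
      _ = (84 * k * (4 / δ + 1) * t) * (τ * Real.exp t * N) / 4 := by ring
      _ ≤ Real.exp t * (τ * Real.exp t * N) / 4 := by gcongr
      _ = Real.exp (-(4 * t)) * (p * N) / 4 := by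
          rw [hτ]
          have e : Real.exp (-(4 * t)) = Real.exp t * Real.exp t * Real.exp (-(6 * t)) := by
            rw [← Real.exp_add, ← Real.exp_add]; congr 1; ring
          rw [e]
          ring
      _ ≤ d k M * (p * N) / 4 := by gcongr
  · apply max_le le_rfl
    have h2 := steps' hδ0 hδ1 hJ
    rw [Nat.card_Icc]
    have e1 : ((N + 1 - 1 : ℕ) : ℝ) = N := by simp
    rw [e1]
    calc (1 - δ) ^ J * (N : ℝ) ≤ Real.exp (-(4 * t)) * N := by gcongr
      _ ≤ d k M * N := by gcongr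
      _ ≤ 8 * N * d k M := by nlinarith

end Pool.Agent.H24.RS
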