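import Pool.Agent.H24.SF.Main
import Pool.Agent.H24.RS.Base

/-!
# Large progression-free subsets of a set with few progressions
-/

set_option autoImplicit false

open Finset

namespace Pool.Agent.H24.RS

open Pool.Agent.H617R3.AP

theorem det {k m N : ℕ} (hk : 3 ≤ k) (hm : 1 ≤ m) {S : Finset ℕ} (hS : S ⊆ Icc 1 N)
    (h : apc k N S ≤ m * S.card) :
    ∃ A ⊆ S, APFree k A ∧ (r k m : ℝ) / (8 * m) * S.card ≤ A.card := by
  classical
  set X : Finset ℤ := S.image fun n : ℕ => (n : ℤ) with hX
  set P : Finset (ℤ × ℤ) := ((progs k N).filter fun q => ∀ i < k, q.1 + i * q.2 ∈ S).image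
    fun q => ((q.1 : ℤ), (q.2 : ℤ)) with hP
  have hinj : Function.Injective (fun n : ℕ => (n : ℤ)) := fun a b hab => by simpa using hab
  have hXc : X.card = S.card := card_image_of_injective _ hinj
  have hPc : P.card ≤ m * X.card := by
    rw [hXc]
    refine le_trans card_image_le ?_
    exact h
  obtain ⟨A, hA, hA1, hA2⟩ := H24.SF.main (G := ℤ) hk hm X P (w := fun _ => 1)
    (fun _ => zero_le_one) (by
      intro q hq
      rw [hP, mem_image] at hq
      obtain ⟨q', hq', rfl⟩ := hq
      rw [mem_filter, progs, mem_filter, mem_product, mem_Icc, mem_Icc] at hq'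
      have := hq'.1.1.2.1
      simp only
      omega) (by
      simp only [sum_const, nsmul_eq_mul, mul_one]
      exact_mod_cast hPc)
  simp only [sum_const, nsmul_eq_mul, mul_one] at hA2
  refine ⟨S.filter fun n : ℕ => (n : ℤ) ∈ A, filter_subset _ _, ?_, ?_⟩
  · intro a d hd hall
    have hmem : ∀ i < k, a + i * d ∈ S := fun i hi => (mem_filter.1 (hall i hi)).1
    have hmem' : ∀ i < k, ((a + i * d : ℕ) : ℤ) ∈ A := fun i hi => (mem_filter.1 (hall i hi)).2
    have h0 := mem_Icc.1 (hS (hmem 0 (by omega)))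
    have h1 := mem_Icc.1 (hS (hmem 1 (by omega)))
    refine hA1 ((a : ℤ), (d : ℤ)) ?_ ?_
    · rw [hP, mem_image]
      refine ⟨(a, d), ?_, rfl⟩
      rw [mem_filter, progs, mem_filter, mem_product, mem_Icc, mem_Icc]
      refine ⟨⟨⟨⟨by simpa using h0.1, by omega⟩, hd, by omega⟩, fun i hi => hS (hmem i hi)⟩, hmem⟩
    · intro i hi
      have := hmem' i hi
      have e : ((a : ℤ) + i • (d : ℤ)) = ((a + i * d : ℕ) : ℤ) := by
        rw [nsmul_eq_mul]; push_cast; ring
      rw [e]
      exact this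
  · have hc : A.card ≤ (S.filter fun n : ℕ => (n : ℤ) ∈ A).card := by
      have hsub : A ⊆ (S.filter fun n : ℕ => (n : ℤ) ∈ A).image fun n : ℕ => (n : ℤ) := by
        intro x hx
        have hxX := hA hx
        rw [hX, mem_image] at hxX
        obtain ⟨n, hn, rfl⟩ := hxX
        exact mem_image.2 ⟨n, mem_filter.2 ⟨hn, hx⟩, rfl⟩
      exact (card_le_card hsub).trans card_image_le
    rw [← hXc]
    refine hA2.trans ?_
    exact_mod_cast hc

/-- a random set is not small -/
theorem size {N : ℕ} {p : ℝ} (hN : 1 ≤ N) (hp0 : 0 < p) (hp1 : p ≤ 1) :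
    randProb (Icc 1 N) p (fun S => (S.card : ℝ) < p * N / 2) ≤ 8 / (p * N) := by
  classical
  have hN0 : (0 : ℝ) < N := by exact_mod_cast hN
  have hx : 0 < p * N := by positivity
  have hL := Real.log_two_lt_d9
  have hL0 := Real.log_two_gt_d9
  have hmom := moment (Icc 1 N) (Icc 1 N) Subset.rfl p (1 / 2)
  have hcard : (Icc 1 N).card = N := by simp
  have h1 := markov (U := Icc 1 N) hp0.le hp1 (fun S => (1 / 2 : ℝ) ^ (S ∩ Icc 1 N).card)
    (fun S _ => by positivity) (B := Real.exp (-(Real.log 2 * (p * N / 2)))) (Real.exp_pos _)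
    (Q := fun S => (S.card : ℝ) < p * N / 2) (by
      intro S hS hQ
      rw [mem_powerset] at hS
      rw [inter_eq_left.2 hS]
      have e : (1 / 2 : ℝ) ^ S.card = Real.exp (-(Real.log 2 * S.card)) := by
        rw [Real.exp_neg, Real.exp_mul, Real.exp_log (by norm_num), Real.rpow_natCast, one_div,
          inv_pow]
      rw [e]
      apply Real.exp_le_exp.2
      have hQ' : (S.card : ℝ) < p * N / 2 := hQ
      nlinarith)
  refine h1.trans ?_
  have h2 : ∑ S ∈ (Icc 1 N).powerset, wt (Icc 1 N) p S * (1 / 2 : ℝ) ^ (S ∩ Icc 1 N).card =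
      (1 + p * (1 / 2 - 1)) ^ N := by
    rw [hcard] at hmom
    rw [← hmom]
    refine sum_congr rfl fun S _ => ?_
    rw [wt, hcard]
  rw [h2]
  have h3 : (1 + p * (1 / 2 - 1)) ^ N ≤ Real.exp (-(p * N / 2)) := by
    calc (1 + p * (1 / 2 - 1)) ^ N ≤ (Real.exp (-(p / 2))) ^ N := by
          apply pow_le_pow_left₀ (by linarith)
          have := Real.add_one_le_exp (-(p / 2))
          linarith
      _ = Real.exp (-(p * N / 2)) := by
          rw [← Real.exp_nat_mul]
          congr 1
          ring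
  calc (1 + p * (1 / 2 - 1)) ^ N / Real.exp (-(Real.log 2 * (p * N / 2)))
      ≤ Real.exp (-(p * N / 2)) / Real.exp (-(Real.log 2 * (p * N / 2))) := by gcongr
    _ = Real.exp (-((1 - Real.log 2) / 2 * (p * N))) := by
        rw [← Real.exp_sub]
        congr 1
        ring
    _ ≤ Real.exp (-(1 / 8 * (p * N))) := by
        apply Real.exp_le_exp.2
        nlinarith
    _ ≤ 8 / (p * N) := by
        rw [Real.exp_neg, inv_eq_one_div, div_le_div_iff₀ (Real.exp_pos _) hx]
        have := Real.add_one_le_exp (1 / 8 * (p * N))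
        linarith

end Pool.Agent.H24.RS
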