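import Pool.Agent.H24.RS.Base

/-!
# RS-VAR (helper39): second moment of the number of progressions in a random set
-/

set_option autoImplicit false

open Finset

namespace Pool.Agent.H24.RS

namespace VarAux

lemma mem_progs {k N : ℕ} {q : ℕ × ℕ} : q ∈ progs k N ↔
    (q.1 ∈ Icc 1 N ∧ q.2 ∈ Icc 1 N) ∧ ∀ i < k, q.1 + i * q.2 ∈ Icc 1 N := by
  classical
  unfold progs
  rw [mem_filter, mem_product]

lemma mem_prog {k : ℕ} {q : ℕ × ℕ} {x : ℕ} : x ∈ prog k q ↔ ∃ i < k, q.1 + i * q.2 = x := by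
  unfold prog
  simp only [mem_image, mem_range]

lemma prog_sub {k N : ℕ} {q : ℕ × ℕ} (hq : q ∈ progs k N) : prog k q ⊆ Icc 1 N := by
  intro x hx
  obtain ⟨i, hi, rfl⟩ := mem_prog.1 hx
  exact (mem_progs.1 hq).2 i hi

lemma card_prog {k N : ℕ} {q : ℕ × ℕ} (hq : q ∈ progs k N) : (prog k q).card = k := by
  unfold prog
  rw [card_image_of_injective, card_range]
  intro i j hij
  have h2 : 1 ≤ q.2 := (mem_Icc.1 (mem_progs.1 hq).1.2).1
  simp only at hij
  have : i * q.2 = j * q.2 := by omega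
  exact Nat.eq_of_mul_eq_mul_right h2 this

open Classical in
lemma apc_eq (k N : ℕ) (S : Finset ℕ) :
    (apc k N S : ℝ) = ∑ q ∈ progs k N, if prog k q ⊆ S then (1 : ℝ) else 0 := by
  unfold apc
  rw [← sum_filter, sum_const, nsmul_eq_mul, mul_one]
  congr 2
  ext q
  simp only [mem_filter, and_congr_right_iff]
  intro _
  constructor
  · intro h x hx
    obtain ⟨i, hi, rfl⟩ := mem_prog.1 hx
    exact h i hi
  · intro h i hi
    exact h (mem_prog.2 ⟨i, hi, rfl⟩)

/-- `2 |progs| ≤ N²` -/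
lemma card_progs {k N : ℕ} (hk : 2 ≤ k) : 2 * (progs k N).card ≤ N ^ 2 := by
  classical
  set A := progs k N with hA
  set B := A.image (fun q => (N + 1 - q.1, N + 1 - q.2)) with hB
  have hle : ∀ q ∈ A, 1 ≤ q.1 ∧ 1 ≤ q.2 ∧ q.1 + q.2 ≤ N := by
    intro q hq
    have h := mem_progs.1 hq
    have h1 := h.2 1 (by omega)
    rw [one_mul, mem_Icc] at h1
    exact ⟨(mem_Icc.1 h.1.1).1, (mem_Icc.1 h.1.2).1, h1.2⟩
  have hBc : B.card = A.card := by
    rw [hB]
    apply card_image_of_injOn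
    intro q hq q' hq' h
    have a := hle q hq
    have b := hle q' hq'
    simp only [Prod.mk.injEq] at h
    ext <;> omega
  have hdis : Disjoint A B := by
    rw [disjoint_left]
    intro q hq hq'
    rw [hB, mem_image] at hq'
    obtain ⟨q1, hq1, rfl⟩ := hq'
    have a := hle _ hq
    have b := hle q1 hq1
    simp only at a
    omega
  have hsub : A ∪ B ⊆ Icc 1 N ×ˢ Icc 1 N := by
    intro q hq
    rw [mem_union] at hq
    rw [mem_product, mem_Icc, mem_Icc]
    rcases hq with hq | hq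
    · have a := hle q hq
      omega
    · rw [hB, mem_image] at hq
      obtain ⟨q1, hq1, rfl⟩ := hq
      have b := hle q1 hq1
      simp only
      omega
  have := card_le_card hsub
  rw [card_union_of_disjoint hdis, hBc, card_product, Nat.card_Icc] at this
  have e : N + 1 - 1 = N := by omega
  rw [e] at this
  nlinarith

open Classical in
/-- the number of progressions which meet a given one -/
lemma card_meet {k N : ℕ} (q : ℕ × ℕ) :
    ((progs k N).filter (fun q' => 1 ≤ (prog k q ∩ prog k q').card)).card ≤ k ^ 2 * N := by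
  have h : ((progs k N).filter (fun q' => 1 ≤ (prog k q ∩ prog k q').card)).card ≤
      ((range k ×ˢ range k) ×ˢ Icc 1 N).card := by
    refine card_le_card_of_forall_subsingleton
      (fun (q' : ℕ × ℕ) (b : (ℕ × ℕ) × ℕ) => q'.2 = b.2 ∧
        q.1 + b.1.1 * q.2 = q'.1 + b.1.2 * q'.2) ?_ ?_
    · intro q' hq'
      rw [mem_filter] at hq'
      obtain ⟨x, hx⟩ := card_pos.1 (Nat.lt_of_succ_le hq'.2)
      rw [mem_inter] at hx
      obtain ⟨i, hi, hix⟩ := mem_prog.1 hx.1
      obtain ⟨j, hj, hjx⟩ := mem_prog.1 hx.2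
      refine ⟨((i, j), q'.2), ?_, rfl, ?_⟩
      · rw [mem_product, mem_product]
        exact ⟨⟨mem_range.2 hi, mem_range.2 hj⟩, (mem_progs.1 hq'.1).1.2⟩
      · simp only; rw [hix, hjx]
    · rintro b _ q1 ⟨_, h1, h2⟩ q2 ⟨_, h3, h4⟩
      have e : q1.2 = q2.2 := by rw [h1, h3]
      rw [e] at h2
      ext
      · omega
      · exact e
  refine h.trans (le_of_eq ?_)
  rw [card_product, card_product, card_range, Nat.card_Icc]
  have e : N + 1 - 1 = N := by omega
  rw [e]
  ring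

open Classical in
/-- the number of progressions which have two common elements with a given one -/
lemma card_meet2 {k N : ℕ} (q : ℕ × ℕ) :
    ((progs k N).filter (fun q' => 2 ≤ (prog k q ∩ prog k q').card)).card ≤ k ^ 4 := by
  have h : ((progs k N).filter (fun q' => 2 ≤ (prog k q ∩ prog k q').card)).card ≤
      ((range k ×ˢ range k) ×ˢ (range k ×ˢ range k)).card := by
    refine card_le_card_of_forall_subsingleton
      (fun (q' : ℕ × ℕ) (b : (ℕ × ℕ) × (ℕ × ℕ)) => b.1.2 ≠ b.2.2 ∧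
        q.1 + b.1.1 * q.2 = q'.1 + b.1.2 * q'.2 ∧
        q.1 + b.2.1 * q.2 = q'.1 + b.2.2 * q'.2) ?_ ?_
    · intro q' hq'
      rw [mem_filter] at hq'
      obtain ⟨x, y, hx, hy, hxy⟩ := one_lt_card_iff.1 (Nat.lt_of_succ_le hq'.2)
      rw [mem_inter] at hx hy
      obtain ⟨i, hi, hix⟩ := mem_prog.1 hx.1
      obtain ⟨j, hj, hjx⟩ := mem_prog.1 hx.2
      obtain ⟨i', hi', hiy⟩ := mem_prog.1 hy.1
      obtain ⟨j', hj', hjy⟩ := mem_prog.1 hy.2
      refine ⟨((i, j), (i', j')), ?_, ?_, ?_, ?_⟩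
      · simp only [mem_product, mem_range]
        exact ⟨⟨hi, hj⟩, hi', hj'⟩
      · intro e
        simp only at e
        rw [← hjx, ← hjy, e] at hxy
        exact hxy rfl
      · simp only; rw [hix, hjx]
      · simp only; rw [hiy, hjy]
    · rintro b _ q1 ⟨_, h0, h1, h2⟩ q2 ⟨_, _, h3, h4⟩
      have e1 : (q1.1 : ℤ) + b.1.2 * q1.2 = q2.1 + b.1.2 * q2.2 := by
        exact_mod_cast h1.symm.trans h3
      have e2 : (q1.1 : ℤ) + b.2.2 * q1.2 = q2.1 + b.2.2 * q2.2 := by
        exact_mod_cast h2.symm.trans h4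
      have e3 : ((b.1.2 : ℤ) - b.2.2) * ((q1.2 : ℤ) - q2.2) = 0 := by linear_combination e1 - e2
      have e4 : (q1.2 : ℤ) = q2.2 := by
        rcases mul_eq_zero.1 e3 with h | h
        · exfalso; apply h0; omega
        · omega
      have e5 : q1.2 = q2.2 := by exact_mod_cast e4
      rw [e4] at e1
      ext
      · omega
      · exact e5
  refine h.trans (le_of_eq ?_)
  rw [card_product, card_product, card_range]
  ring

open Classical in
/-- the covariance of two progressions -/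
lemma cov_le {k N : ℕ} {p : ℝ} (hp0 : 0 ≤ p) (hp1 : p ≤ 1) {q q' : ℕ × ℕ}
    (hq : q ∈ progs k N) (hq' : q' ∈ progs k N) :
    p ^ (prog k q ∪ prog k q').card - p ^ (2 * k) ≤
      (if 1 ≤ (prog k q ∩ prog k q').card then p ^ (2 * k - 1) else 0) +
      (if 2 ≤ (prog k q ∩ prog k q').card then p ^ k else 0) := by
  have h := card_union_add_card_inter (prog k q) (prog k q')
  rw [card_prog hq, card_prog hq'] at h
  have hpp : 0 ≤ p ^ (2 * k) := pow_nonneg hp0 _
  have hpk : 0 ≤ p ^ k := pow_nonneg hp0 _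
  have hpk1 : 0 ≤ p ^ (2 * k - 1) := pow_nonneg hp0 _
  rcases Nat.lt_or_ge (prog k q ∩ prog k q').card 1 with h1 | h1
  · have e : (prog k q ∪ prog k q').card = 2 * k := by omega
    rw [e, sub_self]
    rw [if_neg (by omega), if_neg (by omega)]
    simp
  · rw [if_pos h1]
    rcases Nat.lt_or_ge (prog k q ∩ prog k q').card 2 with h2 | h2
    · have e : (prog k q ∪ prog k q').card = 2 * k - 1 := by omega
      rw [e, if_neg (by omega)]
      linarith
    · rw [if_pos h2]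
      have e : k ≤ (prog k q ∪ prog k q').card := by
        have := card_le_card (subset_union_left (s₁ := prog k q) (s₂ := prog k q'))
        rwa [card_prog hq] at this
      have : p ^ (prog k q ∪ prog k q').card ≤ p ^ k := pow_le_pow_of_le_one hp0 hp1 e
      linarith

end VarAux

open VarAux

open Classical in
theorem var_bound : S_VAR := by
  intro k N p hk hN hp0 hp1 hpN
  set U := Icc 1 N with hU
  set P := progs k N with hP
  set E : ℝ := P.card * p ^ k with hE
  set B : ℝ := p ^ k * (N : ℝ) ^ 2 with hB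
  have hNr : (0 : ℝ) < N := by exact_mod_cast (by omega : 0 < N)
  have hpk : 0 < p ^ k := pow_pos hp0 k
  have hB0 : 0 < B := by positivity
  have hcard : 2 * (P.card : ℝ) ≤ (N : ℝ) ^ 2 := by
    exact_mod_cast card_progs (k := k) (N := N) (by omega)
  have hEB : E ≤ B / 2 := by
    rw [hE, hB]
    have := mul_le_mul_of_nonneg_right hcard hpk.le
    linarith
  -- expectation
  have hY : ∀ S, (apc k N S : ℝ) = ∑ q ∈ P, if prog k q ⊆ S then (1 : ℝ) else 0 := apc_eq k N
  have hEY : ∑ S ∈ U.powerset, wt U p S * (apc k N S : ℝ) = E := by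
    have h1 : ∀ S ∈ U.powerset, wt U p S * (apc k N S : ℝ) =
        ∑ q ∈ P, if prog k q ⊆ S then wt U p S else 0 := by
      intro S _
      rw [hY, mul_sum]
      refine sum_congr rfl (fun q _ => ?_)
      split_ifs <;> simp
    rw [sum_congr rfl h1, sum_comm]
    have h2 : ∀ q ∈ P, ∑ S ∈ U.powerset, (if prog k q ⊆ S then wt U p S else 0) = p ^ k := by
      intro q hq
      rw [sum_superset U (prog k q) (prog_sub hq) p, card_prog hq]
    rw [sum_congr rfl h2, sum_const, nsmul_eq_mul]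
  have hEY2 : ∑ S ∈ U.powerset, wt U p S * (apc k N S : ℝ) ^ 2 =
      ∑ q ∈ P, ∑ q' ∈ P, p ^ (prog k q ∪ prog k q').card := by
    have h1 : ∀ S ∈ U.powerset, wt U p S * (apc k N S : ℝ) ^ 2 =
        ∑ q ∈ P, ∑ q' ∈ P, if prog k q ∪ prog k q' ⊆ S then wt U p S else 0 := by
      intro S _
      rw [hY, sq, sum_mul_sum, mul_sum]
      refine sum_congr rfl (fun q _ => ?_)
      rw [mul_sum]
      refine sum_congr rfl (fun q' _ => ?_)
      by_cases a : prog k q ⊆ S
      · by_cases b : prog k q' ⊆ S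
        · rw [if_pos a, if_pos b, if_pos (union_subset a b)]; ring
        · rw [if_pos a, if_neg b, if_neg (fun h => b (subset_union_right.trans h))]; ring
      · rw [if_neg a, if_neg (fun h => a (subset_union_left.trans h))]; ring
    rw [sum_congr rfl h1, sum_comm]
    refine sum_congr rfl (fun q hq => ?_)
    rw [sum_comm]
    refine sum_congr rfl (fun q' hq' => ?_)
    rw [sum_superset U (prog k q ∪ prog k q') (union_subset (prog_sub hq) (prog_sub hq')) p]
  -- variance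
  have hvar : ∑ S ∈ U.powerset, wt U p S * ((apc k N S : ℝ) - E) ^ 2 =
      ∑ q ∈ P, ∑ q' ∈ P, (p ^ (prog k q ∪ prog k q').card - p ^ (2 * k)) := by
    have h1 : ∑ S ∈ U.powerset, wt U p S * ((apc k N S : ℝ) - E) ^ 2 =
        ∑ S ∈ U.powerset, wt U p S * (apc k N S : ℝ) ^ 2 -
          2 * E * ∑ S ∈ U.powerset, wt U p S * (apc k N S : ℝ) +
          E ^ 2 * ∑ S ∈ U.powerset, wt U p S := by
      rw [mul_sum, mul_sum, ← sum_sub_distrib, ← sum_add_distrib]
      exact sum_congr rfl (fun S _ => by ring)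
    rw [h1, hEY, hEY2, sum_wt]
    have h2 : ∑ q ∈ P, ∑ q' ∈ P, (p ^ (prog k q ∪ prog k q').card - p ^ (2 * k)) =
        ∑ q ∈ P, ∑ q' ∈ P, p ^ (prog k q ∪ prog k q').card - E ^ 2 := by
      have h3 : ∀ q ∈ P, ∑ q' ∈ P, (p ^ (prog k q ∪ prog k q').card - p ^ (2 * k)) =
          ∑ q' ∈ P, p ^ (prog k q ∪ prog k q').card - P.card * p ^ (2 * k) := by
        intro q _
        rw [sum_sub_distrib, sum_const, nsmul_eq_mul]
      rw [sum_congr rfl h3, sum_sub_distrib, sum_const, nsmul_eq_mul]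
      congr 1
      rw [hE]
      ring
    rw [h2]
    ring
  have hvarb : ∑ S ∈ U.powerset, wt U p S * ((apc k N S : ℝ) - E) ^ 2 ≤
      P.card * ((k : ℝ) ^ 2 * N * p ^ (2 * k - 1) + (k : ℝ) ^ 4 * p ^ k) := by
    rw [hvar, ← nsmul_eq_mul]
    refine sum_le_card_nsmul _ _ _ (fun q hq => ?_)
    calc ∑ q' ∈ P, (p ^ (prog k q ∪ prog k q').card - p ^ (2 * k)) ≤
        ∑ q' ∈ P, ((if 1 ≤ (prog k q ∩ prog k q').card then p ^ (2 * k - 1) else 0) +
          (if 2 ≤ (prog k q ∩ prog k q').card then p ^ k else 0)) :=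
          sum_le_sum (fun q' hq' => cov_le hp0.le hp1 hq hq')
      _ = ((P.filter (fun q' => 1 ≤ (prog k q ∩ prog k q').card)).card : ℝ) * p ^ (2 * k - 1) +
          ((P.filter (fun q' => 2 ≤ (prog k q ∩ prog k q').card)).card : ℝ) * p ^ k := by
          rw [sum_add_distrib, ← sum_filter, ← sum_filter, sum_const, sum_const, nsmul_eq_mul,
            nsmul_eq_mul]
      _ ≤ (k : ℝ) ^ 2 * N * p ^ (2 * k - 1) + (k : ℝ) ^ 4 * p ^ k := by
          apply add_le_add
          · apply mul_le_mul_of_nonneg_right _ (pow_nonneg hp0.le _)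
            exact_mod_cast card_meet (k := k) (N := N) q
          · apply mul_le_mul_of_nonneg_right _ (pow_nonneg hp0.le _)
            exact_mod_cast card_meet2 (k := k) (N := N) q
  -- Chebyshev
  have hcheb : randProb U p (fun S => B ≤ (apc k N S : ℝ)) ≤
      (∑ S ∈ U.powerset, wt U p S * ((apc k N S : ℝ) - E) ^ 2) / (B / 2) ^ 2 := by
    refine markov hp0.le hp1 (fun S => ((apc k N S : ℝ) - E) ^ 2) (fun S _ => sq_nonneg _)
      (by positivity) (fun S _ hS => ?_)
    have : B / 2 ≤ (apc k N S : ℝ) - E := by linarith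
    exact pow_le_pow_left₀ (by positivity) this 2
  refine hcheb.trans ?_
  have h1 : (∑ S ∈ U.powerset, wt U p S * ((apc k N S : ℝ) - E) ^ 2) / (B / 2) ^ 2 ≤
      ((N : ℝ) ^ 2 / 2 * ((k : ℝ) ^ 2 * N * p ^ (2 * k - 1) + (k : ℝ) ^ 4 * p ^ k)) /
        (B / 2) ^ 2 := by
    apply div_le_div_of_nonneg_right _ (by positivity)
    refine hvarb.trans ?_
    apply mul_le_mul_of_nonneg_right (by linarith) (by positivity)
  refine h1.trans ?_
  rw [div_le_div_iff₀ (by positivity) (by positivity)]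
  -- powers
  have e1 : p ^ (2 * k - 1) * p = p ^ k * p ^ k := by
    rw [← pow_succ, ← pow_add]; congr 1; omega
  have e2 : p ^ k = p ^ (k - 1) * p := by
    rw [← pow_succ]; congr 1; omega
  have hk3 : (3 : ℝ) ≤ k := by exact_mod_cast hk
  have hk2 : (k : ℝ) ^ 2 ≤ (k : ℝ) ^ 4 := pow_le_pow_right₀ (by linarith) (by norm_num)
  have e3 : p * (N : ℝ) ≤ p ^ k * (N : ℝ) ^ 2 := by
    rw [e2]
    have : 0 ≤ p * (N : ℝ) := by positivity
    have := mul_le_mul_of_nonneg_right hpN this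
    nlinarith
  have e4 : (k : ℝ) ^ 4 * p ^ k * (p * N) ≤ (k : ℝ) ^ 4 * (p ^ k * (p ^ k * (N : ℝ) ^ 2)) := by
    have := mul_le_mul_of_nonneg_left e3 (by positivity : 0 ≤ (k : ℝ) ^ 4 * p ^ k)
    linarith
  have e5 : (k : ℝ) ^ 2 * N * p ^ (2 * k - 1) * (p * N) =
      (k : ℝ) ^ 2 * (p ^ k * (p ^ k * (N : ℝ) ^ 2)) := by
    calc (k : ℝ) ^ 2 * N * p ^ (2 * k - 1) * (p * N) =
        (k : ℝ) ^ 2 * (N : ℝ) ^ 2 * (p ^ (2 * k - 1) * p) := by ring
      _ = _ := by rw [e1]; ring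
  have e6 : (k : ℝ) ^ 2 * (p ^ k * (p ^ k * (N : ℝ) ^ 2)) ≤
      (k : ℝ) ^ 4 * (p ^ k * (p ^ k * (N : ℝ) ^ 2)) :=
    mul_le_mul_of_nonneg_right hk2 (by positivity)
  have e7 : ((k : ℝ) ^ 2 * N * p ^ (2 * k - 1) + (k : ℝ) ^ 4 * p ^ k) * (p * N) ≤
      2 * (k : ℝ) ^ 4 * (p ^ k * (p ^ k * (N : ℝ) ^ 2)) := by
    rw [add_mul, e5]
    linarith
  have e8 := mul_le_mul_of_nonneg_left e7 (by positivity : 0 ≤ (N : ℝ) ^ 2 / 2)
  calc (N : ℝ) ^ 2 / 2 * ((k : ℝ) ^ 2 * N * p ^ (2 * k - 1) + (k : ℝ) ^ 4 * p ^ k) * (p * N) =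
      (N : ℝ) ^ 2 / 2 * (((k : ℝ) ^ 2 * N * p ^ (2 * k - 1) + (k : ℝ) ^ 4 * p ^ k) * (p * N)) := by
        ring
    _ ≤ (N : ℝ) ^ 2 / 2 * (2 * (k : ℝ) ^ 4 * (p ^ k * (p ^ k * (N : ℝ) ^ 2))) := e8
    _ = 4 * (k : ℝ) ^ 4 * (B / 2) ^ 2 := by rw [hB]; ring

end Pool.Agent.H24.RS
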