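import Pool.Agent.H24.RS.Det
import Pool.Agent.H24.RS.VAR
import Pool.Agent.H24.Lib.R_seed8.H617R3.AP.Scale

/-!
# Lower bounds
-/

set_option autoImplicit false

open Finset

namespace Pool.Agent.H24.RS

open Pool.Agent.H617R3.AP

theorem low {k m N : ℕ} {p : ℝ} (hk : 3 ≤ k) (hN : 1 ≤ N) (hp0 : 0 < p) (hp1 : p ≤ 1)
    (h1 : 1 ≤ p ^ (k - 1) * N) (hm : 2 * (p ^ (k - 1) * N) ≤ m) :
    randProb (Icc 1 N) p (fun S => ∀ A ⊆ S, APFree k A →
      (A.card : ℝ) < d k m / 16 * (p * N)) ≤ (4 * (k : ℝ) ^ 4 + 8) / (p * N) := by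
  have hN0 : (0 : ℝ) < N := by exact_mod_cast hN
  have hm2 : (2 : ℝ) ≤ m := by linarith
  have hm1 : 1 ≤ m := by
    have : (1 : ℝ) ≤ m := by linarith
    exact_mod_cast this
  have hm0 : (0 : ℝ) < m := by linarith
  have hv := var_bound k N p hk hN hp0 hp1 h1
  have hs := size hN hp0 hp1
  have hu := randProb_union (U := Icc 1 N) hp0.le hp1
    (Q := fun S => ∀ A ⊆ S, APFree k A → (A.card : ℝ) < d k m / 16 * (p * N))
    (Q₁ := fun S => p ^ k * (N : ℝ) ^ 2 ≤ (apc k N S : ℝ))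
    (Q₂ := fun S => (S.card : ℝ) < p * N / 2) (by
      intro S hS hQ
      rw [mem_powerset] at hS
      by_contra hcon
      rw [not_or, not_le, not_lt] at hcon
      obtain ⟨ha, hb⟩ := hcon
      have e : p ^ k * (N : ℝ) ^ 2 = (p ^ (k - 1) * N) * (p * N) := by
        have : k = (k - 1) + 1 := by omega
        conv_lhs => rw [this, pow_succ]
        ring
      have hx : 0 < p * N := by positivity
      have h2 : (apc k N S : ℝ) ≤ m * S.card := by
        rw [e] at ha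
        calc (apc k N S : ℝ) ≤ (p ^ (k - 1) * N) * (p * N) := ha.le
          _ ≤ (m / 2) * (p * N) := by
              apply mul_le_mul_of_nonneg_right _ hx.le
              linarith
          _ = m * (p * N / 2) := by ring
          _ ≤ m * S.card := by gcongr
      obtain ⟨A, hA, hA1, hA2⟩ := det (k := k) (m := m) (N := N) hk hm1 hS (by exact_mod_cast h2)
      have h3 := hQ A hA hA1
      have h4 : d k m / 16 * (p * N) ≤ (r k m : ℝ) / (8 * m) * S.card := by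
        have e2 : (r k m : ℝ) / (8 * m) = d k m / 8 := by
          unfold d
          field_simp
        rw [e2]
        have hd : 0 ≤ d k m := (d_pos hk hm1).le
        calc d k m / 16 * (p * N) = d k m / 8 * (p * N / 2) := by ring
          _ ≤ d k m / 8 * S.card := by gcongr
      linarith)
  refine hu.trans ?_
  rw [add_div]
  exact add_le_add hv hs

/-- the lower bound in terms of `⌊m⌋` -/
theorem low' {k N : ℕ} {p : ℝ} (hk : 3 ≤ k) (hN : 1 ≤ N) (hp0 : 0 < p) (hp1 : p ≤ 1)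
    (h1 : 1 ≤ p ^ (k - 1) * N) :
    randProb (Icc 1 N) p (fun S => ∀ A ⊆ S, APFree k A →
      (A.card : ℝ) < d k ⌊p ^ (k - 1) * N⌋₊ / 96 * (p * N)) ≤ (4 * (k : ℝ) ^ 4 + 8) / (p * N) := by
  have hN0 : (0 : ℝ) < N := by exact_mod_cast hN
  obtain ⟨x, hx⟩ : ∃ x : ℝ, x = p ^ (k - 1) * N := ⟨_, rfl⟩
  rw [← hx] at h1 ⊢
  have hfl : 1 ≤ ⌊x⌋₊ := Nat.le_floor (by exact_mod_cast h1)
  have hfl0 : (0 : ℝ) < ⌊x⌋₊ := by exact_mod_cast hfl
  have hfl1 : (1 : ℝ) ≤ ⌊x⌋₊ := by exact_mod_cast hfl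
  have hlow := low (m := ⌈2 * x⌉₊) hk hN hp0 hp1 (by rw [← hx]; exact h1)
    (by rw [← hx]; exact Nat.le_ceil _)
  refine le_trans (randProb_mono hp0.le hp1 ?_) hlow
  intro S _ hQ A hA hA1
  refine (hQ A hA hA1).trans_le ?_
  have hpN : 0 < p * N := by positivity
  apply mul_le_mul_of_nonneg_right _ hpN.le
  have hc1 : 1 ≤ ⌈2 * x⌉₊ := Nat.one_le_ceil_iff.2 (by linarith)
  have h2 := d_le (k := k) (by omega) (M := ⌊x⌋₊) (by omega) (N := ⌈2 * x⌉₊) (by omega)
  have h3 : ((⌈2 * x⌉₊ : ℕ) : ℝ) / ⌊x⌋₊ ≤ 5 := by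
    rw [div_le_iff₀ hfl0]
    have h4 := (Nat.ceil_lt_add_one (show 0 ≤ 2 * x by linarith)).le
    have h5 := (Nat.lt_floor_add_one x).le
    linarith
  have hd : 0 ≤ d k ⌈2 * x⌉₊ := (d_pos hk hc1).le
  have h4 : d k ⌊x⌋₊ ≤ 6 * d k ⌈2 * x⌉₊ := by
    refine h2.trans ?_
    apply mul_le_mul_of_nonneg_right _ hd
    linarith
  linarith

/-- the expected number of progression-free `s`-subsets of a random set -/
theorem cnt (k N s : ℕ) {p : ℝ} (hp0 : 0 < p) (hp1 : p ≤ 1) :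
    randProb (Icc 1 N) p (fun S => ∃ A ⊆ S, APFree k A ∧ s ≤ A.card) ≤
      (((freeSets k N).filter (fun A => A.card = s)).card : ℝ) * p ^ s := by
  classical
  set F := (freeSets k N).filter (fun A => A.card = s) with hF
  have h1 : ∀ A ∈ F, A ⊆ Icc 1 N ∧ APFree k A ∧ A.card = s := by
    intro A hA
    rw [hF, mem_filter, mem_freeSets] at hA
    exact ⟨hA.1.1, hA.1.2, hA.2⟩
  have h2 : (F.card : ℝ) * p ^ s = ∑ A ∈ F, ∑ S ∈ (Icc 1 N).powerset,
      (if A ⊆ S then wt (Icc 1 N) p S else 0) := by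
    rw [← nsmul_eq_mul, ← sum_const]
    refine sum_congr rfl fun A hA => ?_
    rw [sum_superset _ _ (h1 A hA).1, (h1 A hA).2.2]
  rw [h2, sum_comm, randProb_wt, sum_filter]
  refine sum_le_sum fun S hS => ?_
  rw [mem_powerset] at hS
  have hnn : ∀ A ∈ F, 0 ≤ (if A ⊆ S then wt (Icc 1 N) p S else 0) := by
    intro A _
    split_ifs
    · exact wt_nonneg hp0.le hp1 S
    · exact le_rfl
  split_ifs with h
  · obtain ⟨A, hA, hA1, hA2⟩ := h
    obtain ⟨B, hB, hB2⟩ := exists_subset_card_eq hA2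
    have hBF : B ∈ F := by
      rw [hF, mem_filter, mem_freeSets]
      exact ⟨⟨(hB.trans hA).trans hS, hA1.mono hB⟩, hB2⟩
    refine le_trans ?_ (single_le_sum hnn hBF)
    rw [if_pos (hB.trans hA)]
  · exact sum_nonneg hnn

end Pool.Agent.H24.RS
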