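import Pool.Agent.H24.Lib.seeded_b0a926ef.R535.AP.Reg

/-!
# Windows of scales (adapted from `window` in R535.AP.Reg)
-/

set_option autoImplicit false

open Finset

namespace Pool.Agent.H24.RS

open Pool.Agent.H617R3.AP Pool.Agent.R535.AP

open Classical in
/-- the density decreases at most by a constant factor in the window `exp (c √(log N))` above -/
theorem window_up {k : ℕ} (hk : 3 ≤ k) {c ε : ℝ} (hc : 0 < c) (hε : 0 < ε) :
    ∃ (Λ C : ℝ) (E : Set ℕ), 1 ≤ Λ ∧
      (∀ x : ℕ, 1 ≤ x → ∑ N ∈ (Icc 1 x).filter (fun N => N ∈ E), (1 : ℝ) / N ≤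
        ε * Real.log x + C) ∧
      ∀ N : ℕ, 1 ≤ N → N ∉ E → ∀ M : ℕ, 1 ≤ M → (M : ℝ) ≤ N * Real.exp (c * √(Real.log N)) →
        d k N ≤ Λ * d k M := by
  obtain ⟨b, hb⟩ : ∃ b : ℝ, b = 2 * c + 2 := ⟨_, rfl⟩
  have hb0 : 0 < b := by linarith
  obtain ⟨η, hη⟩ : ∃ η : ℝ, η = 16 * (b + 1) * (b + 2) / ε := ⟨_, rfl⟩
  have hη0 : 0 < η := by rw [hη]; positivity
  obtain ⟨J, hJ⟩ := exists_nat_gt ((c + 4) ^ 2)
  obtain ⟨B, hB⟩ : ∃ B : Set ℕ, B = {j | j < J ∨ η < f k j - f k (j + (wid b j + 1))} := ⟨_, rfl⟩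
  refine ⟨4 * Real.exp η, J + ε, {N | Nat.log 2 N ∈ B}, ?_, fun x hx => ?_,
    fun N hN hNE M hM1 hM => ?_⟩
  · have := Real.add_one_le_exp η
    linarith
  · refine (sum_blocks _ B (fun N hN => hN) x).trans ?_
    set K := Nat.log 2 x + 1 with hK
    set H := wid b K with hH
    have hK1 : (1 : ℝ) ≤ K := by rw [hK]; push_cast; linarith [Nat.cast_nonneg (α := ℝ) (Nat.log 2 x)]
    have h1 : (range K).filter (fun j => j ∈ B) ⊆ range J ∪
        ((range K).filter (fun i => η < f k i - f k (i + (H + 1)))) := by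
      intro j hj
      rw [mem_filter, mem_range] at hj
      rw [mem_union, mem_range, mem_filter, mem_range]
      obtain ⟨hjK, hj⟩ := hj
      rw [hB] at hj
      rcases hj with h | h
      · exact Or.inl h
      · right
        refine ⟨hjK, ?_⟩
        have hw : wid b j ≤ H := wid_mono hb0.le hjK.le
        have h3 := f_anti hk (show j + (wid b j + 1) ≤ j + (H + 1) by omega)
        linarith
    have h2 := (card_le_card h1).trans (card_union_le _ _)
    rw [card_range] at h2
    have h3 := card_bad_le hk K (H + 1) hη0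
    have h4 : (((range K).filter (fun j => j ∈ B)).card : ℝ) ≤
        J + ((range K).filter (fun i => η < f k i - f k (i + (H + 1)))).card := by
      exact_mod_cast h2
    have hHr : (H : ℝ) ≤ b * √(K : ℝ) := Nat.floor_le (by positivity)
    have hsq1 : 1 ≤ √(K : ℝ) := by
      rw [Real.one_le_sqrt]
      exact hK1
    have hss : √(K : ℝ) * √(K : ℝ) = K := Real.mul_self_sqrt (by linarith)
    have h5 : (H : ℝ) + 1 ≤ (b + 1) * √(K : ℝ) := by nlinarith
    have h6 : √((K : ℝ) + ((H + 1 : ℕ) : ℝ)) ≤ (b + 2) * √(K : ℝ) := by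
      rw [Real.sqrt_le_left (by positivity)]
      push_cast
      have h7 : (b + 1) * √(K : ℝ) ≤ (b + 1) * K := by
        have : 0 ≤ b + 1 := by linarith
        have h8 : √(K : ℝ) ≤ K := by
          calc √(K : ℝ) ≤ √(K : ℝ) * √(K : ℝ) := le_mul_of_one_le_left (by linarith) hsq1
            _ = K := hss
        exact mul_le_mul_of_nonneg_left h8 this
      have h9 : ((b + 2) * √(K : ℝ)) ^ 2 = (b + 2) ^ 2 * K := by
        rw [mul_pow, pow_two (√(K : ℝ)), hss]
      rw [h9]
      nlinarith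
    have h10 : 4 * ((H + 1 : ℕ) : ℝ) * √((K : ℝ) + ((H + 1 : ℕ) : ℝ)) / η ≤ ε / 4 * K := by
      rw [div_le_iff₀ hη0]
      calc 4 * ((H + 1 : ℕ) : ℝ) * √((K : ℝ) + ((H + 1 : ℕ) : ℝ))
          ≤ 4 * ((b + 1) * √(K : ℝ)) * ((b + 2) * √(K : ℝ)) := by
            push_cast
            push_cast at h6
            gcongr
        _ = 4 * (b + 1) * (b + 2) * (√(K : ℝ) * √(K : ℝ)) := by ring
        _ = ε / 4 * K * η := by
            rw [hss, hη]
            field_simp
            ring
    have h13 := natlog_le hx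
    have h14 : (K : ℝ) ≤ 3 / 2 * Real.log x + 1 := by rw [hK]; push_cast; linarith
    have h15 : 0 ≤ Real.log x := Real.log_nonneg (by exact_mod_cast hx)
    have h16 : ε / 4 * K ≤ ε * Real.log x + ε := by nlinarith
    linarith
  · -- the comparison
    obtain ⟨j, hj⟩ : ∃ j, j = Nat.log 2 N := ⟨_, rfl⟩
    have hNE' : ¬ (j < J ∨ η < f k j - f k (j + (wid b j + 1))) := by
      rw [hj]
      intro h
      apply hNE
      rw [hB]
      exact h
    rw [not_or, not_lt, not_lt] at hNE'
    obtain ⟨hJj, hgood⟩ := hNE'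
    have hN0 : (0 : ℝ) < N := by exact_mod_cast hN
    have hM0 : (0 : ℝ) < M := by exact_mod_cast hM1
    have hN1 : (2 : ℝ) ^ j ≤ N := by
      rw [hj]
      exact_mod_cast Nat.pow_log_le_self 2 (by omega : N ≠ 0)
    have hN2 : (N : ℝ) ≤ 2 ^ (j + 1) := by
      rw [hj]
      exact_mod_cast (Nat.lt_pow_succ_log_self (by norm_num : 1 < 2) N).le
    have hL2 := Real.log_two_gt_d9
    have hL2' := Real.log_two_lt_d9
    have hs0 : 0 ≤ √(j : ℝ) := Real.sqrt_nonneg _
    have hSj : c + 4 ≤ √(j : ℝ) := by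
      apply Real.le_sqrt_of_sq_le
      have : (J : ℝ) ≤ j := by exact_mod_cast hJj
      linarith
    have h3 : √(Real.log N) ≤ √(j : ℝ) + 1 := by
      have h4 : Real.log N ≤ (j : ℝ) + 1 := by
        have h6 := Real.log_le_log hN0 hN2
        rw [Real.log_pow] at h6
        push_cast at h6
        have hj0 : (0 : ℝ) ≤ j := Nat.cast_nonneg _
        nlinarith
      calc √(Real.log N) ≤ √((j : ℝ) + 1) := Real.sqrt_le_sqrt h4
        _ ≤ √(j : ℝ) + 1 := by
          rw [Real.sqrt_le_left (by linarith)]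
          have := Real.sq_sqrt (Nat.cast_nonneg j : (0 : ℝ) ≤ j)
          nlinarith
    have hw : b * √(j : ℝ) - 1 ≤ wid b j := by
      have := Nat.lt_floor_add_one (b * √(j : ℝ))
      unfold wid
      linarith
    have hw0 : (0 : ℝ) ≤ wid b j := Nat.cast_nonneg _
    have h7 : c * √(Real.log N) ≤ wid b j * Real.log 2 := by
      have h8 : c * √(Real.log N) ≤ c * (√(j : ℝ) + 1) :=
        mul_le_mul_of_nonneg_left h3 hc.le
      have hcj : 0 ≤ c * √(j : ℝ) := by positivity
      have h9 : (b * √(j : ℝ) - 1) * (69 / 100) ≤ wid b j * Real.log 2 := by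
        apply mul_le_mul hw (by linarith) (by norm_num) hw0
      rw [hb] at h9
      nlinarith
    have h8 : Real.exp (c * √(Real.log N)) ≤ 2 ^ (wid b j) := by
      have e2 : Real.exp ((wid b j : ℕ) * Real.log 2) = 2 ^ (wid b j) := by
        rw [mul_comm, Real.exp_mul, Real.exp_log (by norm_num), Real.rpow_natCast]
      rw [← e2]
      exact Real.exp_le_exp.2 h7
    have hi : (M : ℝ) ≤ 2 ^ (j + (wid b j + 1)) := by
      calc (M : ℝ) ≤ N * Real.exp (c * √(Real.log N)) := hM
        _ ≤ 2 ^ (j + 1) * 2 ^ (wid b j) := by gcongr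
        _ = 2 ^ (j + (wid b j + 1)) := by rw [← pow_add]; congr 1; ring
    have hA : d k (2 ^ (j + (wid b j + 1))) ≤ 2 * d k M := by
      refine (d_le (k := k) (by omega) (M := 2 ^ (j + (wid b j + 1))) (by positivity)
        (N := M) (by omega)).trans ?_
      apply mul_le_mul_of_nonneg_right _ (d_pos hk hM1).le
      push_cast
      have : (M : ℝ) / 2 ^ (j + (wid b j + 1)) ≤ 1 := by
        rw [div_le_one (by positivity)]; exact hi
      linarith
    have hB' : d k (2 ^ j) ≤ Real.exp η * d k (2 ^ (j + (wid b j + 1))) := by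
      have h4 : Real.log (d k (2 ^ j)) ≤ η + Real.log (d k (2 ^ (j + (wid b j + 1)))) := by
        unfold f at hgood; linarith
      have h5 := Real.exp_le_exp.2 h4
      rwa [Real.exp_add, Real.exp_log (d_pos hk Nat.one_le_two_pow),
        Real.exp_log (d_pos hk Nat.one_le_two_pow)] at h5
    have hC : d k N ≤ 2 * d k (2 ^ j) := by
      refine (d_le (k := k) (by omega) (M := N) (by omega) (N := 2 ^ j) (by positivity)).trans ?_
      apply mul_le_mul_of_nonneg_right _ (d_pos hk Nat.one_le_two_pow).le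
      push_cast
      have : (2 : ℝ) ^ j / N ≤ 1 := by
        rw [div_le_one hN0]; exact hN1
      linarith
    have hex := Real.exp_pos η
    calc d k N ≤ 2 * d k (2 ^ j) := hC
      _ ≤ 2 * (Real.exp η * d k (2 ^ (j + (wid b j + 1)))) := by gcongr
      _ ≤ 2 * (Real.exp η * (2 * d k M)) := by gcongr
      _ = 4 * Real.exp η * d k M := by ring

end Pool.Agent.H24.RS
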