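import Pool.Agent.H24.RS.Up
import Pool.Agent.H24.RS.Win

/-!
# The main estimates, with the comparison of scales as a hypothesis
-/

set_option autoImplicit false

open Finset

namespace Pool.Agent.H24.RS

open Pool.Agent.H617R3.AP Pool.Agent.R535.AP

theorem upper {k : ℕ} (hk : 3 ≤ k) : ∃ t₀ : ℝ, ∀ (N : ℕ) (p t L : ℝ), 0 < p → p ≤ 1 → t₀ ≤ t →
    p ^ (k - 1) * N = Real.exp (t ^ 2) → Real.log N ≤ Real.exp t → 0 ≤ L →
    (∀ M : ℕ, 1 ≤ M → Real.exp (t ^ 2 - (6 * k + 1) * t) ≤ M → (M : ℝ) ≤ Real.exp (t ^ 2) →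
      d k M ≤ L * d k ⌊Real.exp (t ^ 2)⌋₊) →
    randProb (Icc 1 N) p (fun S => ∃ A ⊆ S, APFree k A ∧
      14 * L * d k ⌊Real.exp (t ^ 2)⌋₊ * (p * N) ≤ (A.card : ℝ)) ≤
        Real.exp (-(d k ⌊Real.exp (t ^ 2)⌋₊ * (p * N) / 5)) ∧
      ∀ s : ℕ, 1 ≤ s → p * N = s →
        (nfree k N s : ℝ) ≤ (60 * L * d k ⌊Real.exp (t ^ 2)⌋₊ * N / s) ^ s := by
  obtain ⟨t₀, h⟩ := up hk
  refine ⟨max t₀ 1, fun N p t L hp0 hp1 ht hm hlog hL0 hL => ?_⟩
  have ht1 : 1 ≤ t := (le_max_right _ _).trans ht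
  obtain ⟨M, hM1, hM2, hM3, hup, hcnt⟩ := h N p t hp0 hp1 ((le_max_left _ _).trans ht) hm hlog
  have hM4 : (M : ℝ) ≤ Real.exp (t ^ 2) := hM3.trans (Real.exp_le_exp.2 (by linarith))
  have hd := hL M hM1 hM2 hM4
  have hM0 : (0 : ℝ) < M := by exact_mod_cast hM1
  have hn1 : M ≤ ⌊Real.exp (t ^ 2)⌋₊ := Nat.le_floor hM4
  have hn0 : 1 ≤ ⌊Real.exp (t ^ 2)⌋₊ := hM1.trans hn1
  have hd2 : d k ⌊Real.exp (t ^ 2)⌋₊ ≤ 2 * d k M := by
    refine (d_le (k := k) (by omega) (M := ⌊Real.exp (t ^ 2)⌋₊) (by omega) (N := M)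
      (by omega)).trans ?_
    apply mul_le_mul_of_nonneg_right _ (d_pos hk hM1).le
    have hn0' : (0 : ℝ) < (⌊Real.exp (t ^ 2)⌋₊ : ℕ) := by exact_mod_cast hn0
    have : (M : ℝ) / (⌊Real.exp (t ^ 2)⌋₊ : ℕ) ≤ 1 := by
      rw [div_le_one hn0']
      exact_mod_cast hn1
    linarith
  have hN0 : (0 : ℝ) ≤ N := Nat.cast_nonneg _
  have hpN : 0 ≤ p * N := by positivity
  have hdM : 0 < d k M := d_pos hk hM1
  have hdn : 0 < d k ⌊Real.exp (t ^ 2)⌋₊ := d_pos hk hn0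
  refine ⟨?_, fun s hs hps => ?_⟩
  · refine le_trans (randProb_mono hp0.le hp1 ?_) (hup.trans ?_)
    · rintro S - ⟨A, hA, hA1, hA2⟩
      refine ⟨A, hA, hA1, le_trans ?_ hA2⟩
      have h1 : d k M * (p * N) ≤ (L * d k ⌊Real.exp (t ^ 2)⌋₊) * (p * N) :=
        mul_le_mul_of_nonneg_right hd hpN
      nlinarith
    · apply Real.exp_le_exp.2
      have h1 : d k ⌊Real.exp (t ^ 2)⌋₊ * (p * N) ≤ (2 * d k M) * (p * N) :=
        mul_le_mul_of_nonneg_right hd2 hpN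
      nlinarith
  · refine (hcnt s hs hps).trans ?_
    have hs0 : (0 : ℝ) < s := by exact_mod_cast hs
    apply pow_le_pow_left₀ (by positivity)
    apply div_le_div_of_nonneg_right _ hs0.le
    apply mul_le_mul_of_nonneg_right _ hN0
    linarith

theorem choose_le_nfree {k N s : ℕ} (hk : 1 ≤ k) : (r k N).choose s ≤ nfree k N s := by
  classical
  obtain ⟨A, hA, hA2, hA3⟩ := exists_opt hk N
  rw [← hA3, ← card_powersetCard]
  unfold nfree
  apply card_le_card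
  intro B hB
  rw [mem_powersetCard] at hB
  rw [mem_filter, mem_freeSets]
  exact ⟨⟨hB.1.trans hA, hA2.mono hB.1⟩, hB.2⟩

theorem lower {k : ℕ} (hk : 3 ≤ k) : ∃ t₀ : ℝ, ∀ (N s : ℕ) (t L : ℝ), 1 ≤ s → s ≤ r k N →
    t₀ ≤ t → ((s : ℝ) / N) ^ (k - 1) * N = Real.exp (t ^ 2) → 1 ≤ L → 96 * L ≤ Real.exp t →
    (∀ M : ℕ, ⌊Real.exp (t ^ 2)⌋₊ ≤ M → (M : ℝ) ≤ Real.exp (t ^ 2 + 5 * (k - 1) * t) →
      d k ⌊Real.exp (t ^ 2)⌋₊ ≤ L * d k M) →
    (d k ⌊Real.exp (t ^ 2)⌋₊ * N / (192 * L * s)) ^ s ≤ (nfree k N s : ℝ) := by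
  refine ⟨max 1 (2 * (4 * (k : ℝ) ^ 4 + 8)), ?_⟩
  intro N s t L hs hsr ht hm hL1 hLt hL
  have ht1 : 1 ≤ t := (le_max_left _ _).trans ht
  have ht2 : 2 * (4 * (k : ℝ) ^ 4 + 8) ≤ t := (le_max_right _ _).trans ht
  have ht0 : 0 < t := by linarith
  have hkR : (3 : ℝ) ≤ k := by exact_mod_cast hk
  have hs0 : (0 : ℝ) < s := by exact_mod_cast hs
  have hsN : s ≤ N := hsr.trans (r_le_self k N)
  have hN1 : 1 ≤ N := hs.trans hsN
  have hN0 : (0 : ℝ) < N := by exact_mod_cast hN1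
  obtain ⟨n₀, hn₀⟩ : ∃ n₀ : ℕ, n₀ = ⌊Real.exp (t ^ 2)⌋₊ := ⟨_, rfl⟩
  rw [← hn₀] at hL ⊢
  have hn1 : 1 ≤ n₀ := by
    rw [hn₀]
    apply Nat.le_floor
    rw [Nat.cast_one]
    exact Real.one_le_exp (by positivity)
  have hn0' : (0 : ℝ) < n₀ := by exact_mod_cast hn1
  have hnle : (n₀ : ℝ) ≤ Real.exp (t ^ 2) := by rw [hn₀]; exact Nat.floor_le (Real.exp_pos _).le
  obtain ⟨ρ, hρ⟩ : ∃ ρ : ℝ, ρ = d k n₀ := ⟨_, rfl⟩
  rw [← hρ] at hL ⊢
  have hρ0 : 0 < ρ := by rw [hρ]; exact d_pos hk hn1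
  have hρ1 : ρ ≤ 1 := by
    rw [hρ]
    unfold d
    rw [div_le_one hn0']
    exact_mod_cast r_le_self k n₀
  have hρlow : Real.exp (-(4 * t)) ≤ ρ := by rw [hρ]; exact d_ge hk hn1 ht0.le hnle
  have hL0 : 0 < L := by linarith
  -- the ratio
  obtain ⟨y, hy⟩ : ∃ y : ℝ, y = 96 * L / ρ := ⟨_, rfl⟩
  have hy1 : 1 ≤ y := by
    rw [hy, le_div_iff₀ hρ0]
    linarith
  have hy0 : 0 < y := by linarith
  have hy5 : y ≤ Real.exp (5 * t) := by
    rw [hy, div_le_iff₀ hρ0]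
    calc 96 * L ≤ Real.exp t := hLt
      _ = Real.exp (5 * t) * Real.exp (-(4 * t)) := by rw [← Real.exp_add]; congr 1; ring
      _ ≤ Real.exp (5 * t) * ρ := by gcongr
  have hyk : y ^ (k - 1) ≤ Real.exp (5 * (k - 1) * t) := by
    calc y ^ (k - 1) ≤ Real.exp (5 * t) ^ (k - 1) := by gcongr
      _ = Real.exp (5 * (k - 1) * t) := by
          rw [← Real.exp_nat_mul]
          congr 1
          rw [Nat.cast_sub (by omega)]
          push_cast
          ring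
  have hqs : (s : ℝ) / N ≤ 1 := by
    rw [div_le_one hN0]
    exact_mod_cast hsN
  have hq0 : 0 < (s : ℝ) / N := by positivity
  have hsbig : Real.exp (t ^ 2) ≤ s := by
    rw [← hm]
    calc ((s : ℝ) / N) ^ (k - 1) * N ≤ ((s : ℝ) / N) ^ 1 * N := by
          apply mul_le_mul_of_nonneg_right _ hN0.le
          exact pow_le_pow_of_le_one hq0.le hqs (by omega)
      _ = s := by field_simp
  rcases le_or_gt (s * y) (N : ℝ) with hx | hx
  · -- random sets
    obtain ⟨p, hp⟩ : ∃ p : ℝ, p = s * y / N := ⟨_, rfl⟩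
    have hp0 : 0 < p := by rw [hp]; positivity
    have hp1 : p ≤ 1 := by rw [hp, div_le_one hN0]; exact hx
    have hpN : p * N = s * y := by rw [hp]; field_simp
    have hm' : p ^ (k - 1) * N = Real.exp (t ^ 2) * y ^ (k - 1) := by
      rw [← hm, hp]
      have e : (s : ℝ) * y / N = (s / N) * y := by ring
      rw [e, mul_pow]
      ring
    have hyk1 : 1 ≤ y ^ (k - 1) := one_le_pow₀ hy1
    have hexp1 : 1 ≤ Real.exp (t ^ 2) := Real.one_le_exp (by positivity)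
    have hm1 : 1 ≤ p ^ (k - 1) * N := by
      rw [hm']
      exact one_le_mul_of_one_le_of_one_le hexp1 hyk1
    have hlow := low' (k := k) (N := N) (p := p) hk hN1 hp0 hp1 hm1
    obtain ⟨n', hn'⟩ : ∃ n' : ℕ, n' = ⌊p ^ (k - 1) * N⌋₊ := ⟨_, rfl⟩
    rw [← hn'] at hlow
    have hnn : n₀ ≤ n' := by
      rw [hn₀, hn']
      apply Nat.floor_le_floor
      rw [hm']
      exact le_mul_of_one_le_right (Real.exp_pos _).le hyk1
    have hn'le : (n' : ℝ) ≤ Real.exp (t ^ 2 + 5 * (k - 1) * t) := by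
      rw [hn']
      refine (Nat.floor_le (by linarith)).trans ?_
      rw [hm', Real.exp_add]
      gcongr
    have hd := hL n' hnn hn'le
    have hd0 : 0 < d k n' := d_pos hk (hn1.trans hnn)
    have hbig : (s : ℝ) ≤ d k n' / 96 * (p * N) := by
      rw [hpN]
      have h1 : ρ / L ≤ d k n' := by
        rw [div_le_iff₀ hL0]
        linarith
      calc (s : ℝ) = ρ / L / 96 * (s * y) := by rw [hy]; field_simp
        _ ≤ d k n' / 96 * (s * y) := by gcongr
    have hhalf : (1 : ℝ) / 2 ≤ (nfree k N s : ℝ) * p ^ s := by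
      have h1 := cnt k N s hp0 hp1
      have h2 : randProb (Icc 1 N) p (fun S => ¬ ∃ A ⊆ S, APFree k A ∧ s ≤ A.card) ≤ 1 / 2 := by
        refine le_trans (randProb_mono hp0.le hp1 ?_) (hlow.trans ?_)
        · intro S _ hS A hA hA1
          by_contra hcon
          rw [not_lt] at hcon
          apply hS
          refine ⟨A, hA, hA1, ?_⟩
          exact_mod_cast hbig.trans hcon
        · rw [hpN, div_le_iff₀ (by positivity)]
          have h3 : t ≤ Real.exp (t ^ 2) := by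
            have := Real.add_one_le_exp (t ^ 2)
            nlinarith
          have h4 : (s : ℝ) ≤ s * y := le_mul_of_one_le_right hs0.le hy1
          linarith
      have h3 := randProb_compl (U := Icc 1 N) (p := p)
        (fun S => ∃ A ⊆ S, APFree k A ∧ s ≤ A.card)
      have h4 : (nfree k N s : ℝ) * p ^ s =
          (((freeSets k N).filter (fun A => A.card = s)).card : ℝ) * p ^ s := by
        unfold nfree
        rfl
      rw [h4]
      linarith
    have h5 : ρ * N / (192 * L * s) = 1 / 2 * (1 / p) := by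
      rw [hp, hy]
      field_simp
      norm_num
    rw [h5, mul_pow]
    have h6 : ((1 : ℝ) / 2) ^ s ≤ 1 / 2 := by
      calc ((1 : ℝ) / 2) ^ s ≤ (1 / 2) ^ 1 :=
            pow_le_pow_of_le_one (by norm_num) (by norm_num) hs
        _ = 1 / 2 := pow_one _
    have hps : 0 < p ^ s := pow_pos hp0 s
    rw [one_div_pow (a := p), mul_one_div, div_le_iff₀ hps]
    exact h6.trans hhalf
  · -- dense sets
    have hNs : (N : ℝ) / s ≤ y := by
      rw [div_le_iff₀ hs0]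
      linarith
    have hNeq : (N : ℝ) = Real.exp (t ^ 2) * ((N : ℝ) / s) ^ (k - 1) := by
      rw [← hm]
      have e : ((s : ℝ) / N) ^ (k - 1) * N * ((N : ℝ) / s) ^ (k - 1) =
          (((s : ℝ) / N) * ((N : ℝ) / s)) ^ (k - 1) * N := by rw [mul_pow]; ring
      rw [e]
      have e2 : ((s : ℝ) / N) * ((N : ℝ) / s) = 1 := by field_simp
      rw [e2, one_pow, one_mul]
    have hNle : (N : ℝ) ≤ Real.exp (t ^ 2 + 5 * (k - 1) * t) := by
      rw [hNeq, Real.exp_add]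
      apply mul_le_mul_of_nonneg_left _ (Real.exp_pos _).le
      calc ((N : ℝ) / s) ^ (k - 1) ≤ y ^ (k - 1) := by gcongr
        _ ≤ _ := hyk
    have hnN : n₀ ≤ N := by
      have h1 : (n₀ : ℝ) ≤ N := by
        have : (s : ℝ) ≤ N := by exact_mod_cast hsN
        linarith
      exact_mod_cast h1
    have hd := hL N hnN hNle
    have hch : (((r k N : ℕ) : ℝ) / s) ^ s ≤ (nfree k N s : ℝ) := by
      refine (le_choose hs hsr).trans ?_
      exact_mod_cast choose_le_nfree (k := k) (N := N) (s := s) (by omega)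
    refine le_trans ?_ hch
    apply pow_le_pow_left₀ (by positivity)
    have hr : ((r k N : ℕ) : ℝ) = d k N * N := by
      unfold d
      field_simp
    rw [hr, div_le_div_iff₀ (by positivity) hs0]
    have hdN0 : 0 < d k N := d_pos hk hN1
    calc ρ * N * s ≤ (L * d k N) * N * s := by gcongr
      _ = 1 * (d k N * N * (L * s)) := by ring
      _ ≤ 192 * (d k N * N * (L * s)) := by
          apply mul_le_mul_of_nonneg_right (by norm_num) (by positivity)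
      _ = d k N * N * (192 * L * s) := by ring

open Classical in
theorem sum_union_le' (E F : Set ℕ) (x : ℕ) :
    ∑ N ∈ (Icc 1 x).filter (fun N => N ∈ E ∪ F), (1 : ℝ) / N ≤
      ∑ N ∈ (Icc 1 x).filter (fun N => N ∈ E), (1 : ℝ) / N +
        ∑ N ∈ (Icc 1 x).filter (fun N => N ∈ F), (1 : ℝ) / N := by
  have h3 : (Icc 1 x).filter (fun N => N ∈ E ∪ F) =
      (Icc 1 x).filter (fun N => N ∈ E) ∪ (Icc 1 x).filter (fun N => N ∈ F) := by
    ext n
    simp only [mem_filter, mem_union, Set.mem_union]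
    tauto
  rw [h3, ← sum_union_inter]
  have h4 : 0 ≤ ∑ N ∈ (Icc 1 x).filter (fun N => N ∈ E) ∩ (Icc 1 x).filter (fun N => N ∈ F),
      (1 : ℝ) / N := sum_nonneg fun n _ => by positivity
  linarith

end Pool.Agent.H24.RS
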