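import Pool.Agent.H24.RS.Cont
import Pool.Agent.H24.RS.Low
import Pool.Agent.H24.Lib.seeded_ab47071d.TH3.AP.Every

/-!
# Upper bounds, comparison of scales
-/

set_option autoImplicit false

open Finset

namespace Pool.Agent.H24.RS

open Pool.Agent.H617R3.AP Pool.Agent.R535.AP Pool.Agent.TH3.AP
open Pool.Agent.Y940.CT (Cov)

/-- the number of progression-free `s`-subsets of `{1, ..., N}` -/
noncomputable def nfree (k N s : ℕ) : ℕ := by
  classical
  exact ((freeSets k N).filter (fun A => A.card = s)).card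

theorem choose_le {n s : ℕ} (hs : 1 ≤ s) : (n.choose s : ℝ) ≤ (Real.exp 1 * n / s) ^ s := by
  have hs0 : (0 : ℝ) < s := by exact_mod_cast hs
  have h1 := Nat.choose_le_pow_div (α := ℝ) s n
  have h2 := Real.pow_div_factorial_le_exp (s : ℝ) hs0.le s
  have hf : (0 : ℝ) < (s.factorial : ℝ) := by exact_mod_cast Nat.factorial_pos s
  have h3 : (s : ℝ) ^ s ≤ Real.exp 1 ^ s * s.factorial := by
    rw [div_le_iff₀ hf] at h2
    rwa [← Real.exp_nat_mul, mul_one]
  refine h1.trans ?_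
  rw [div_pow, mul_pow, div_le_div_iff₀ hf (pow_pos hs0 s)]
  calc (n : ℝ) ^ s * (s : ℝ) ^ s ≤ n ^ s * (Real.exp 1 ^ s * s.factorial) := by gcongr
    _ = Real.exp 1 ^ s * n ^ s * s.factorial := by ring

theorem le_choose {n s : ℕ} (hs : 1 ≤ s) (hsn : s ≤ n) : ((n : ℝ) / s) ^ s ≤ n.choose s := by
  have hs0 : (0 : ℝ) < s := by exact_mod_cast hs
  have h1 : n ^ s * s.factorial ≤ s ^ s * (s.factorial * n.choose s) := by
    rw [← Nat.descFactorial_eq_factorial_mul_choose, ← Nat.descFactorial_self s,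
      Nat.descFactorial_eq_prod_range, Nat.descFactorial_eq_prod_range]
    have e1 : n ^ s = ∏ _i ∈ range s, n := by rw [prod_const, card_range]
    have e2 : s ^ s = ∏ _i ∈ range s, s := by rw [prod_const, card_range]
    rw [e1, e2, ← prod_mul_distrib, ← prod_mul_distrib]
    refine prod_le_prod' fun i hi => ?_
    rw [mem_range] at hi
    zify [hi.le, (hi.le.trans hsn)]
    nlinarith [(by exact_mod_cast hsn : (s : ℤ) ≤ n), (by positivity : (0 : ℤ) ≤ i)]
  have h2 : (n : ℝ) ^ s * s.factorial ≤ s ^ s * (s.factorial * n.choose s) := by exact_mod_cast h1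
  have hf : (0 : ℝ) < (s.factorial : ℝ) := by exact_mod_cast Nat.factorial_pos s
  rw [div_pow, div_le_iff₀ (pow_pos hs0 s)]
  have h3 : (n : ℝ) ^ s * s.factorial ≤ (n.choose s * s ^ s) * s.factorial := by linarith
  exact le_of_mul_le_mul_right h3 hf

/-- The bounds in terms of a scale `M` slightly smaller than `m = p ^ (k - 1) N`. -/
theorem up {k : ℕ} (hk : 3 ≤ k) : ∃ t₀ : ℝ, ∀ (N : ℕ) (p t : ℝ), 0 < p → p ≤ 1 → t₀ ≤ t →
    p ^ (k - 1) * N = Real.exp (t ^ 2) → Real.log N ≤ Real.exp t →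
    ∃ M : ℕ, 1 ≤ M ∧ Real.exp (t ^ 2 - (6 * k + 1) * t) ≤ M ∧ (M : ℝ) ≤ Real.exp (t ^ 2 - t) ∧
      randProb (Icc 1 N) p (fun S => ∃ A ⊆ S, APFree k A ∧ 14 * d k M * (p * N) ≤ (A.card : ℝ)) ≤
        Real.exp (-(2 / 5 * d k M * (p * N))) ∧
      ∀ s : ℕ, 1 ≤ s → p * N = s → (nfree k N s : ℝ) ≤ (60 * d k M * N / s) ^ s := by
  obtain ⟨t₀, h⟩ := cont hk
  refine ⟨t₀, fun N p t hp0 hp1 ht hm hlog => ?_⟩
  obtain ⟨M, hM1, hM2, hM3, hcov⟩ := h N p t hp0 hp1 ht hm hlog
  have hM0 : (0 : ℝ) < M := by exact_mod_cast hM1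
  have hd0 : 0 < d k M := d_pos hk hM1
  have hd1 : d k M ≤ 1 := by
    unfold d
    rw [div_le_one hM0]
    exact_mod_cast r_le_self k M
  have hN0 : (0 : ℝ) < N := by
    rcases Nat.eq_zero_or_pos N with h0 | h0
    · rw [h0] at hm
      simp only [Nat.cast_zero, mul_zero] at hm
      exact absurd hm (Real.exp_pos _).ne
    · exact_mod_cast h0
  have hpN : 0 < p * N := by positivity
  refine ⟨M, hM1, hM2, hM3, ?_, ?_⟩
  · have h1 := random (k := k) (N := N) (n := Real.exp (d k M * (p * N) / 4)) (ε := 1 / 2)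
      (R := 16 / 3 * N * d k M) (p := p) hp0.le hp1 (by norm_num) le_rfl (by positivity)
      (hcov.mono (fun I hI => hI) le_rfl (by
        apply le_of_eq
        ring))
    refine le_trans (randProb_mono hp0.le hp1 ?_) (h1.trans ?_)
    · rintro S - ⟨A, hA, hA1, hA2⟩
      refine ⟨A, hA, hA1, le_trans ?_ hA2⟩
      have : 0 ≤ d k M * (p * N) := by positivity
      nlinarith
    · rw [← Real.exp_add]
      apply Real.exp_le_exp.2
      have : 0 ≤ d k M * (p * N) := by positivity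
      nlinarith
  · intro s hs hps
    have hs0 : (0 : ℝ) < s := by exact_mod_cast hs
    have h1 := freeSets_sized_le (Real.exp_pos _).le hcov s
    have h2 : (nfree k N s : ℝ) ≤ Real.exp (d k M * (p * N) / 4) *
        (⌊8 * N * d k M⌋₊.choose s : ℕ) := by
      refine le_trans (le_of_eq ?_) h1
      unfold nfree
      rfl
    refine h2.trans ?_
    have h3 : Real.exp (d k M * (p * N) / 4) ≤ Real.exp 1 ^ s := by
      rw [← Real.exp_nat_mul, hps]
      apply Real.exp_le_exp.2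
      nlinarith
    have h4 : ((⌊8 * N * d k M⌋₊.choose s : ℕ) : ℝ) ≤
        (Real.exp 1 * (8 * N * d k M) / s) ^ s := by
      refine (choose_le hs).trans ?_
      have hfl : ((⌊8 * N * d k M⌋₊ : ℕ) : ℝ) ≤ 8 * N * d k M := Nat.floor_le (by positivity)
      gcongr
    have he := Real.exp_one_lt_d9
    have he0 := Real.exp_pos 1
    calc Real.exp (d k M * (p * N) / 4) * ((⌊8 * N * d k M⌋₊.choose s : ℕ) : ℝ)
        ≤ Real.exp 1 ^ s * (Real.exp 1 * (8 * N * d k M) / s) ^ s := by gcongr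
      _ = (Real.exp 1 * Real.exp 1 * 8 * (d k M * N) / s) ^ s := by
          rw [← mul_pow]
          congr 1
          ring
      _ ≤ (60 * d k M * N / s) ^ s := by
          apply pow_le_pow_left₀ (by positivity)
          apply div_le_div_of_nonneg_right _ hs0.le
          have h5 : Real.exp 1 * Real.exp 1 * 8 ≤ 60 := by nlinarith
          have h6 : 0 ≤ d k M * N := by positivity
          calc Real.exp 1 * Real.exp 1 * 8 * (d k M * N) ≤ 60 * (d k M * N) := by gcongr
            _ = 60 * d k M * N := by ring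

/-- the density at two scales -/
theorem d_ratio {k : ℕ} (hk : 3 ≤ k) {M N : ℕ} (hM : 1 ≤ M) (hMN : M ≤ N) {y : ℝ}
    (hy : 0 ≤ y) (h : (N : ℝ) / M ≤ Real.exp (y ^ 2)) : d k M ≤ 3 * Real.exp (4 * y) * d k N := by
  have hM0 : (0 : ℝ) < M := by exact_mod_cast hM
  have hN1 : 1 ≤ N := hM.trans hMN
  have hN0 : (0 : ℝ) < N := by exact_mod_cast hN1
  have h1 := r_ratio hk hM hMN
  have h2 : √(Real.log ((N : ℝ) / M)) ≤ y := by
    rw [Real.sqrt_le_left hy, Real.log_le_iff_le_exp (by positivity)]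
    exact h
  have hr : (0 : ℝ) ≤ r k N := Nat.cast_nonneg _
  unfold d
  rw [div_le_iff₀ hM0]
  calc (r k M : ℝ) ≤ 3 * ((M : ℝ) / N) * Real.exp (4 * √(Real.log ((N : ℝ) / M))) * r k N := h1
    _ ≤ 3 * ((M : ℝ) / N) * Real.exp (4 * y) * r k N := by gcongr
    _ = 3 * Real.exp (4 * y) * ((r k N : ℝ) / N) * M := by ring

end Pool.Agent.H24.RS
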